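import Pool.Agent.H290.X14.Root
import Pool.Agent.H290.X14.Den
import Pool.Agent.H290.X14J.Law

/-!
# The 2-part of the strong conjecture for many twists of `X_0(14)` at once, real and imaginary:
# exact independence and the binomial law in the balanced classes

`E_D` is the quadratic twist by `D` of `X_0(14)`, for the squarefree integers `D = 1 mod 4`, positive or
negative, prime to `7`; they form a group for the multiplication `tw` modulo squares, and `E_{tw M D}` is the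
twist by `D` of `E_M`. A prime `p` is of type `A` if `2` is a square and `-7` is not a square modulo `p`,
of type `B` if `-7` is a square and `2` is not, and `nA`, `nB` are the numbers of the prime divisors
of these types. The 2-part of the three assertions of the conjecture for `E_D`, with rank zero and odd `Ш`, is
`StrongTwo D`. It requires `nA D = nB D` if `nB D ≤ nA D` (see `MP_9c97e9_nt/TwistsOfX014ModTwo`). So for
a finite set `T` of numbers `M` we consider the class of the `D` such that all the twists by `D` of the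
`E_M`, `M ∈ T`, are balanced: `nA (tw M D) = nB (tw M D)`.

Theorem. If the class of `T ≠ ∅` contains a number `D` (for instance, if all the numbers
`nA M - nB M`, `M ∈ T`, are equal), then for each residue class `r` of `|D|` modulo `8`:
* there are at least `c X / √(log log X)` numbers `D` with `|D| ≤ X` in the class;
* the proportion of the `D` in the class for which `StrongTwo` holds for the twists by `D` of the `E_M`,
  `M ∈ V`, and fails for those of the `E_M`, `M ∈ T \ V`, is exactly `η ^ |V| (1 - η) ^ |T \ V|`, where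
  `η = (1 - 1/2) (1 - 1/4) (1 - 1/8) ⋯ = 0.2887...`;
* so the number of the `M ∈ T` for which the 2-part holds for the twist by `D` has exactly the binomial
  distribution `B(|T|, η)` in the limit.

Sources: the case of one twist is `MP_9c97e9_nt/TwistsOfX014ModTwo`; the joint law of the matrices of
quadratic symbols is in the library (`NH4/PJ`, for `D` prime to the elements of `T`); the decomposition
for arbitrary `D` is in `Pool/Agent/H290/X14J`.
-/

set_option autoImplicit false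

open Filter Topology WeierstrassCurve

namespace Pool.Agent.Results.MP_4a9ea6_nt.JointTwoPartX14

open Pool.Agent.TH841.SH.D (Sha)
open Pool.Agent.W97.MT (IsGloballyMinimal)
open Pool.Agent.Y700 (IsL)
open Pool.Agent.Y682.XF (realPeriod tors)
open Pool.Agent.H290.X14 (Tam)

/-- the equation of the quadratic twist `E_D`, `D = 1 mod 4`, of `X_0(14)` -/
def E (D : ℤ) : WeierstrassCurve ℤ :=
  ⟨1, (D - 1) / 4, 1, (9 * D ^ 2 - 1) / 2, -((23 * D ^ 3 + 1) / 4)⟩

/-- the curve over `ℚ` -/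
abbrev EQ (D : ℤ) : WeierstrassCurve ℚ := (E D).map (Int.castRingHom ℚ)

/-- `2` is a square modulo the odd prime `p` -/
def Two (p : ℕ) : Prop := p % 8 = 1 ∨ p % 8 = 7

/-- `-7` is a square modulo the odd prime `p ≠ 7` -/
def Sev (p : ℕ) : Prop := p % 7 = 1 ∨ p % 7 = 2 ∨ p % 7 = 4

open Classical in
/-- the number of the prime divisors of type `A` -/
noncomputable def nA (D : ℤ) : ℕ := (D.natAbs.primeFactors.filter fun p => Two p ∧ ¬ Sev p).card

open Classical in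
/-- the number of the prime divisors of type `B` -/
noncomputable def nB (D : ℤ) : ℕ := (D.natAbs.primeFactors.filter fun p => ¬ Two p ∧ Sev p).card

/-- the family -/
def Fam (D : ℤ) : Prop := Squarefree D ∧ D % 4 = 1 ∧ ¬ (7 : ℤ) ∣ D

/-- the product modulo squares: the squarefree part of `M D`, for squarefree `M` and `D` -/
def tw (M D : ℤ) : ℤ := M * D / (Int.gcd M D : ℤ) ^ 2

/-- the right-hand side of the formula in rank zero, with `x` in place of the order of `Ш` -/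
noncomputable def rhs (D : ℤ) (x : ℚ) : ℝ :=
  x * realPeriod (E D) * Tam (E D) / (Nat.card (tors ℚ (E D))) ^ 2

/-- The 2-part of the strong conjecture for `E_D`, with rank zero and odd `Ш`: the equation is minimal,
`E_D(ℚ)` is finite, `Ш(E_D/ℚ)[2^∞] = 0`, `L(E_D, s)` is entire and does not vanish at `s = 1`, and the
formula holds with a 2-adic unit `x` in place of the order of `Ш`. -/
def StrongTwo (D : ℤ) : Prop :=
  IsGloballyMinimal (E D) ∧ Finite (EQ D).toAffine.Point ∧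
    (∀ (k : ℕ) (y : Sha (EQ D)), 2 ^ k • y = 0 → y = 0) ∧
    ∃ Λ : ℂ → ℂ, IsL (E D) Λ ∧ analyticOrderAt Λ 1 = 0 ∧
      ∃ x : ℚ, x ≠ 0 ∧ padicValRat 2 x = 0 ∧ Λ 1 = (rhs D x : ℝ)

/-- the discriminant `D = ± n = 1 mod 4` -/
def dsc (n : ℕ) : ℤ := if n % 4 = 1 then (n : ℤ) else -(n : ℤ)

/-- the class of `T`: the twists by `D` of all the `E_M`, `M ∈ T`, are balanced -/
def Balanced (T : Finset ℤ) (D : ℤ) : Prop := Fam D ∧ ∀ M ∈ T, nA (tw M D) = nB (tw M D)

open Classical in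
/-- the number of the `D` in the class of `T` with `|D| ≤ X`, `|D| = r mod 8` and the property `Q` -/
noncomputable def num (T : Finset ℤ) (Q : ℤ → Prop) (r X : ℕ) : ℕ :=
  ((Finset.Icc 1 X).filter fun n => Balanced T (dsc n) ∧ n % 8 = r ∧ Q (dsc n)).card

open Classical in
/-- the number of the `M ∈ T` such that `StrongTwo` holds for the twist by `D` of `E_M` -/
noncomputable def count (T : Finset ℤ) (D : ℤ) : ℕ := (T.filter fun M => StrongTwo (tw M D)).card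

/-- the constant `(1 - 1/2) (1 - 1/4) (1 - 1/8) ⋯ = 0.2887...` -/
noncomputable def eta : ℝ := ∏' i : ℕ, (1 - (1 / 2 : ℝ) ^ (i + 1))

section proof

open Pool.Agent.H290.X14 hiding EQ dsc tw
open Pool.Agent.H290.X14J
open Pool.Agent.NH1 (sq2 sq7 sS sI sA sB DD gX)
open Pool.Agent.NH5.GD (Adm)
open Pool.Agent.NH5.PR (Gd)
open Pool.Agent.NH4.PF (PmS DS pf AdmZ)
open Pool.Agent.NH4.PJ (dlt)

theorem nA_eq (D : ℤ) : nA D = (sA (Ps D)).card := by
  unfold nA sA
  refine congrArg Finset.card (Finset.ext fun p => ?_)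
  simp only [Finset.mem_filter]
  exact Iff.rfl

theorem nB_eq (D : ℤ) : nB D = (sB (Ps D)).card := by
  unfold nB sB
  refine congrArg Finset.card (Finset.ext fun p => ?_)
  simp only [Finset.mem_filter]
  exact Iff.rfl

theorem adm {D : ℤ} (h : Fam D) : Adm D := ⟨h.1, h.2.1, h.2.2⟩

theorem admZ {D : ℤ} (h : Fam D) : AdmZ D := h

theorem sha_pow {D : ℤ} (h : ∀ y : Sha (EQ D), y + y = 0 → y = 0) (k : ℕ) (y : Sha (EQ D))
    (hy : 2 ^ k • y = 0) : y = 0 := by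
  induction k with
  | zero => simpa using hy
  | succ k ih =>
    rw [pow_succ', mul_smul, two_nsmul] at hy
    exact ih (h _ hy)

theorem u_unit {u : ℤ} (h : (u : ZMod 2) ≠ 0) : u ≠ 0 ∧ padicValInt 2 u = 0 := by
  have h1 : ¬ (2 : ℤ) ∣ u := fun hd => h ((ZMod.intCast_zmod_eq_zero_iff_dvd u 2).2 (by exact_mod_cast hd))
  refine ⟨by rintro rfl; exact h1 (dvd_zero _), ?_⟩
  unfold padicValInt
  exact padicValNat.eq_zero_of_not_dvd fun hd => h1 (Int.natCast_dvd.2 hd)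

theorem alg_eq (D : ℤ) : (Finite (EQ D).toAffine.Point ∧ ∀ y : Sha (EQ D), 2 • y = 0 → y = 0) ↔
    Alg D := by
  unfold Alg
  simp only [two_nsmul]
  exact Iff.rfl

/-- one twist -/
theorem strong_iff {D : ℤ} (h : Fam D) (he : nA D = nB D) : StrongTwo D ↔ Gd gX (Ps D) := by
  have hD := adm h
  have hc : (sB (Ps D)).card ≤ (sA (Ps D)).card := by
    rw [nA_eq, nB_eq] at he
    exact he.ge
  have hgd : Gd gX (Ps D) ↔ DD gX (Ps D) ≠ 0 := by
    refine gd_iff (fun p hp => ((mem_Ps hD).1 hp).1) ?_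
    rwa [nA_eq, nB_eq] at he
  have halg := alg_iff hD hc
  constructor
  · rintro ⟨-, h1, h2, -⟩
    rw [hgd]
    refine (halg.1 ((alg_eq D).1 ⟨h1, fun y hy => h2 1 y ?_⟩)).2
    rw [pow_one]
    exact hy
  · intro hG
    rw [hgd] at hG
    obtain ⟨h1, h2⟩ := halg.2 ⟨by rwa [nA_eq, nB_eq] at he, hG⟩
    have hmin := Pool.Agent.Y814.BSD14.min D h.2.1 h.1 h.2.2
    have hr : sq2 D.natAbs ↔ sq7 D.natAbs := by
      have h3 := Pool.Agent.NH1.PM.sq2_pr (Pm_Ps hD)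
      have h4 := Pool.Agent.NH1.PM.sq7_pr (Pm_Ps hD)
      rw [pr_Ps hD] at h3 h4
      rw [h3, h4]
      rw [nA_eq, nB_eq] at he
      rw [he]
    obtain ⟨f, x, u, hf, hf1, hu0, hu1, hd⟩ := core ⟨hD, hr⟩
    rw [nA_eq, nB_eq] at he
    rw [← hd he] at hG
    obtain ⟨hu, hv⟩ := u_unit hG
    obtain ⟨hx0, hv'⟩ := hu1 hu
    have hx2 : padicValRat 2 x = 0 := by
      rw [hv', hv, he, max_self]
      simp
    refine ⟨hmin.1, h1, sha_pow h2, f, hf, ?_, x, hx0, hx2, hf1⟩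
    rw [analyticOrderAt_eq_zero]
    right
    rw [hf1]
    have hΩ : (realPeriod (E D)) ≠ 0 := (per_pos h.2.1).ne'
    have hT : ((tor D : ℕ) : ℝ) ≠ 0 := by exact_mod_cast tor_ne h.2.1
    have hc : ((Tam (E D) : ℕ) : ℝ) ≠ 0 := by exact_mod_cast Tam_ne hD
    have hx : (x : ℝ) ≠ 0 := by exact_mod_cast hx0
    exact Complex.ofReal_ne_zero.2 (div_ne_zero (mul_ne_zero (mul_ne_zero hx hΩ) hc) (pow_ne_zero 2 hT))

/-! ### the product modulo squares -/

theorem gcd_eq {M D : ℤ} (hM : Squarefree M) (hD : Squarefree D) :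
    Int.gcd M D = ∏ p ∈ Ps M ∩ Ps D, p := by
  have hs : Squarefree (Nat.gcd M.natAbs D.natAbs) :=
    (Int.squarefree_natAbs.2 hM).squarefree_of_dvd (Nat.gcd_dvd_left _ _)
  have h1 := Nat.prod_primeFactors_of_squarefree hs
  rw [Nat.primeFactors_gcd (Int.natAbs_ne_zero.2 hM.ne_zero) (Int.natAbs_ne_zero.2 hD.ne_zero)] at h1
  exact h1.symm

theorem tw_eq {M D : ℤ} (hM : Fam M) (hD : Fam D) : tw M D = DS (symmDiff (Ps M) (Ps D)) := by
  have e1 : DS (Ps M) = M := (admZ hM).DS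
  have e2 : DS (Ps D) = D := (admZ hD).DS
  have h := Pool.Agent.NH4.PF.DS_mul (Ps M) (Ps D)
  rw [e1, e2] at h
  have hg : ((Int.gcd M D : ℕ) : ℤ) ^ 2 = (DS (Ps M ∩ Ps D)) ^ 2 := by
    rw [gcd_eq hM.1 hD.1, ← Pool.Agent.NH4.PF.DS_natAbs, Int.natAbs_sq]
  have hne : (DS (Ps M ∩ Ps D)) ^ 2 ≠ 0 :=
    pow_ne_zero 2 (PmS.mono (admZ hM).pm Finset.inter_subset_left).ne
  unfold tw
  rw [hg, h, Int.mul_ediv_cancel _ hne]

theorem pm_symm {M D : ℤ} (hM : Fam M) (hD : Fam D) : PmS (symmDiff (Ps M) (Ps D)) :=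
  (admZ hM).pm.symmDiff (admZ hD).pm

theorem fam_tw {M D : ℤ} (hM : Fam M) (hD : Fam D) : Fam (tw M D) := by
  rw [tw_eq hM hD]
  exact (pm_symm hM hD).adm

theorem Ps_tw {M D : ℤ} (hM : Fam M) (hD : Fam D) : Ps (tw M D) = symmDiff (Ps D) (Ps M) := by
  rw [tw_eq hM hD, symmDiff_comm (Ps D)]
  exact (pm_symm hM hD).pf

theorem tw_sq {M D : ℤ} (hM : Fam M) (hD : Fam D) :
    M * D = tw M D * (Int.gcd M D : ℤ) ^ 2 := by
  have h := Pool.Agent.NH4.PF.DS_mul (Ps M) (Ps D)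
  have e1 : DS (Ps M) = M := (admZ hM).DS
  have e2 : DS (Ps D) = D := (admZ hD).DS
  rw [e1, e2] at h
  have hg : ((Int.gcd M D : ℕ) : ℤ) ^ 2 = (DS (Ps M ∩ Ps D)) ^ 2 := by
    rw [gcd_eq hM.1 hD.1, ← Pool.Agent.NH4.PF.DS_natAbs, Int.natAbs_sq]
  rw [hg, tw_eq hM hD]
  exact h

theorem Ps_inj {M M' : ℤ} (hM : Fam M) (hM' : Fam M') (h : Ps M = Ps M') : M = M' := by
  have e1 : DS (Ps M) = M := (admZ hM).DS
  have e2 : DS (Ps M') = M' := (admZ hM').DS
  rw [← e1, ← e2, h]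

theorem bal_iff {M : ℤ} (D : ℤ) (hM : Fam M) (hD : Fam D) :
    nA (tw M D) = nB (tw M D) ↔ dlt (symmDiff (Ps D) (Ps M)) = 0 := by
  rw [nA_eq, nB_eq, Ps_tw hM hD]
  unfold dlt
  omega

/-! ### the family of the sets of primes -/

section fam

variable (T : Finset ℤ)

/-- the elements of `T` -/
noncomputable def el (i : Fin T.card) : ℤ := (T.equivFin.symm i : ℤ)

/-- the sets of primes of the elements of `T` -/
noncomputable def UU (i : Fin T.card) : Finset ℕ := Ps (el T i)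

variable {T}

theorem el_mem (i : Fin T.card) : el T i ∈ T := (T.equivFin.symm i).2

theorem exists_el {M : ℤ} (hM : M ∈ T) : ∃ i, el T i = M :=
  ⟨T.equivFin ⟨M, hM⟩, by unfold el; rw [Equiv.symm_apply_apply]⟩

theorem el_inj : Function.Injective (el T) := fun _ _ h => T.equivFin.symm.injective (Subtype.ext h)

theorem UU_pm (hT : ∀ M ∈ T, Fam M) (i : Fin T.card) : PmS (UU T i) := (admZ (hT _ (el_mem i))).pm

theorem UU_inj (hT : ∀ M ∈ T, Fam M) : Function.Injective (UU T) := fun i j h =>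
  el_inj (Ps_inj (hT _ (el_mem i)) (hT _ (el_mem j)) h)

theorem Ps_dsc (n : ℕ) : Ps (dsc n) = n.primeFactors := by
  have e0 : (dsc n).natAbs = n := Pool.Agent.H290.X14.dsc_abs n
  unfold Ps
  rw [e0]

theorem fam_dsc {r n : ℕ} (hr : r = 1 ∨ r = 3 ∨ r = 5 ∨ r = 7) :
    (Fam (dsc n) ∧ n % 8 = r) ↔ (Squarefree n ∧ ¬ 7 ∣ n ∧ n % 8 = r) := by
  have e0 : (dsc n).natAbs = n := Pool.Agent.H290.X14.dsc_abs n
  unfold Fam
  have h7 : (7 : ℤ) ∣ dsc n ↔ 7 ∣ n := by
    rw [show (7 : ℤ) = ((7 : ℕ) : ℤ) by norm_num, Int.natCast_dvd, e0]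
  rw [← Int.squarefree_natAbs, e0, h7]
  constructor
  · rintro ⟨⟨h1, -, h2⟩, h3⟩
    exact ⟨h1, h2, h3⟩
  · rintro ⟨h1, h2, h3⟩
    refine ⟨⟨h1, ?_, h2⟩, h3⟩
    unfold dsc
    split_ifs <;> omega

theorem class_iff (hT : ∀ M ∈ T, Fam M) {r n : ℕ} (hr : r = 1 ∨ r = 3 ∨ r = 5 ∨ r = 7) :
    (Balanced T (dsc n) ∧ n % 8 = r) ↔ BJ r (UU T) n := by
  unfold Balanced BJ
  constructor
  · rintro ⟨⟨h1, h2⟩, h3⟩
    obtain ⟨h4, h5, h6⟩ := (fam_dsc hr).1 ⟨h1, h3⟩
    refine ⟨h4, h5, h6, fun t => ?_⟩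
    have h7 := (bal_iff (dsc n) (hT _ (el_mem t)) h1).1 (h2 _ (el_mem t))
    rwa [Ps_dsc] at h7
  · rintro ⟨h4, h5, h6, h7⟩
    obtain ⟨h1, h3⟩ := (fam_dsc hr).2 ⟨h4, h5, h6⟩
    refine ⟨⟨h1, fun M hM => ?_⟩, h3⟩
    obtain ⟨i, rfl⟩ := exists_el hM
    rw [bal_iff (dsc n) (hT _ hM) h1, Ps_dsc]
    exact h7 i

theorem good_iff (hT : ∀ M ∈ T, Fam M) {n : ℕ} (h : Balanced T (dsc n)) (t : Fin T.card) :
    StrongTwo (tw (el T t) (dsc n)) ↔ Gd gX (symmDiff n.primeFactors (UU T t)) := by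
  have hM := hT _ (el_mem t)
  rw [strong_iff (fam_tw hM h.1) (h.2 _ (el_mem t)), Ps_tw hM h.1, Ps_dsc]
  exact Iff.rfl

theorem num_all (hT : ∀ M ∈ T, Fam M) {r : ℕ} (hr : r = 1 ∨ r = 3 ∨ r = 5 ∨ r = 7) (X : ℕ) :
    num T (fun _ => True) r X = cA r (UU T) X := by
  unfold num cA
  refine cf _ fun n => ?_
  rw [← class_iff hT hr]
  simp only [and_true]

/-- the indices of a subset -/
noncomputable def ix (V : Finset ℤ) : Finset (Fin T.card) := by
  classical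
  exact Finset.univ.filter fun t => el T t ∈ V

theorem mem_ix {V : Finset ℤ} {t : Fin T.card} : t ∈ ix V ↔ el T t ∈ V := by
  unfold ix
  simp

theorem card_ix {V : Finset ℤ} (hV : V ⊆ T) : (ix (T := T) V).card = V.card := by
  refine Finset.card_bij' (fun t _ => el T t) (fun M hM => T.equivFin ⟨M, hV hM⟩) ?_ ?_ ?_ ?_
  · intro t ht
    exact mem_ix.1 ht
  · intro M hM
    rw [mem_ix]
    unfold el
    rw [Equiv.symm_apply_apply]
    exact hM
  · intro t ht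
    simp only [el, Subtype.coe_eta, Equiv.apply_symm_apply]
  · intro M hM
    unfold el
    rw [Equiv.symm_apply_apply]

theorem num_pat (hT : ∀ M ∈ T, Fam M) {r : ℕ} (hr : r = 1 ∨ r = 3 ∨ r = 5 ∨ r = 7)
    (V : Finset ℤ) (X : ℕ) :
    num T (fun D => ∀ M ∈ T, StrongTwo (tw M D) ↔ M ∈ V) r X =
      cVB r (UU T) gX (ix V) (ix (T \ V)) X := by
  classical
  unfold num cVB
  refine cf _ fun n => ?_
  rw [← class_iff hT hr]
  constructor
  · rintro ⟨h1, h2, h3⟩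
    refine ⟨⟨h1, h2⟩, fun t ht => ?_, fun t ht => ?_⟩
    · exact (good_iff hT h1 t).1 ((h3 _ (el_mem t)).2 (mem_ix.1 ht))
    · intro hG
      have h4 := (h3 _ (el_mem t)).1 ((good_iff hT h1 t).2 hG)
      exact (Finset.mem_sdiff.1 (mem_ix.1 ht)).2 h4
  · rintro ⟨⟨h1, h2⟩, h3, h4⟩
    refine ⟨h1, h2, fun M hM => ?_⟩
    obtain ⟨t, rfl⟩ := exists_el hM
    rw [good_iff hT h1 t]
    constructor
    · intro hG
      by_contra hV
      exact h4 t (mem_ix.2 (Finset.mem_sdiff.2 ⟨hM, hV⟩)) hG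
    · intro hV
      exact h3 t (mem_ix.2 hV)

end fam

theorem mf {s : Finset ℕ} {p : ℕ → Prop} {_ : DecidablePred p} {a : ℕ} (h : a ∈ s.filter p) :
    a ∈ s ∧ p a := Finset.mem_filter.1 h

theorem hex_of {T : Finset ℤ} (hT : ∀ M ∈ T, Fam M) {D₀ : ℤ} (h : Balanced T D₀) :
    ∃ S₀ : Finset ℕ, PmS S₀ ∧ ∀ t, dlt (symmDiff S₀ (UU T t)) = 0 :=
  ⟨Ps D₀, (admZ h.1).pm, fun t => (bal_iff D₀ (hT _ (el_mem t)) h.1).1 (h.2 _ (el_mem t))⟩

theorem joint {T : Finset ℤ} (hT : ∀ M ∈ T, Fam M) (hne : T.Nonempty) {D₀ : ℤ}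
    (h0 : Balanced T D₀) {r : ℕ} (hr : r = 1 ∨ r = 3 ∨ r = 5 ∨ r = 7) {V : Finset ℤ}
    (hV : V ⊆ T) : Tendsto (fun X : ℕ => (num T (fun D => ∀ M ∈ T, StrongTwo (tw M D) ↔ M ∈ V) r X : ℝ) /
      (num T (fun _ => True) r X : ℝ)) atTop (𝓝 (eta ^ V.card * (1 - eta) ^ (T.card - V.card))) := by
  have h := lim_VB hr (UU_pm hT) (UU_inj hT) ⟨0, Finset.card_pos.2 hne⟩ (hex_of hT h0) gX
    (ix (T \ V)) (ix V) (by
      rw [Finset.disjoint_left]
      intro t h1 h2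
      exact (Finset.mem_sdiff.1 (mem_ix.1 h2)).2 (mem_ix.1 h1))
  rw [card_ix hV, card_ix Finset.sdiff_subset, Finset.card_sdiff_of_subset hV] at h
  refine h.congr fun X => ?_
  rw [num_pat hT hr, num_all hT hr]

theorem size {T : Finset ℤ} (hT : ∀ M ∈ T, Fam M) (hne : T.Nonempty) {D₀ : ℤ}
    (h0 : Balanced T D₀) {r : ℕ} (hr : r = 1 ∨ r = 3 ∨ r = 5 ∨ r = 7) :
    ∃ (c : ℝ) (X₀ : ℕ), 0 < c ∧ ∀ X : ℕ, X₀ ≤ X →
      c * X / √(Real.log (Real.log X)) ≤ (num T (fun _ => True) r X : ℝ) := by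
  obtain ⟨c, X₀, hc, h⟩ := low_idx hr (UU_pm hT) ⟨0, Finset.card_pos.2 hne⟩ (hex_of hT h0)
  refine ⟨c, X₀, hc, fun X hX => ?_⟩
  rw [num_all hT hr]
  exact h X hX

theorem binom {T : Finset ℤ} (hT : ∀ M ∈ T, Fam M) (hne : T.Nonempty) {D₀ : ℤ}
    (h0 : Balanced T D₀) {r : ℕ} (hr : r = 1 ∨ r = 3 ∨ r = 5 ∨ r = 7) (k : ℕ) :
    Tendsto (fun X : ℕ => (num T (fun D => count T D = k) r X : ℝ) /
      (num T (fun _ => True) r X : ℝ)) atTop
      (𝓝 (T.card.choose k * (eta ^ k * (1 - eta) ^ (T.card - k)))) := by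
  classical
  have h1 : Tendsto (fun X : ℕ => ∑ V ∈ T.powersetCard k,
      (num T (fun D => ∀ M ∈ T, StrongTwo (tw M D) ↔ M ∈ V) r X : ℝ) /
      (num T (fun _ => True) r X : ℝ)) atTop
      (𝓝 (∑ V ∈ T.powersetCard k, eta ^ V.card * (1 - eta) ^ (T.card - V.card))) :=
    tendsto_finsetSum _ fun V hV => joint hT hne h0 hr (Finset.mem_powersetCard.1 hV).1
  have e1 : ∑ V ∈ T.powersetCard k, eta ^ V.card * (1 - eta) ^ (T.card - V.card) =
      T.card.choose k * (eta ^ k * (1 - eta) ^ (T.card - k)) := by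
    rw [Finset.sum_congr rfl fun V hV => by rw [(Finset.mem_powersetCard.1 hV).2],
      Finset.sum_const, Finset.card_powersetCard, nsmul_eq_mul]
  rw [e1] at h1
  refine h1.congr fun X => ?_
  rw [← Finset.sum_div]
  congr 1
  rw [← Nat.cast_sum]
  congr 1
  unfold num
  rw [← Finset.card_biUnion]
  · refine congrArg Finset.card ?_
    ext n
    simp only [Finset.mem_biUnion, Finset.mem_filter, Finset.mem_powersetCard]
    constructor
    · rintro ⟨V, ⟨hV, hk⟩, h2, h3, h4, h5⟩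
      refine ⟨h2, h3, h4, ?_⟩
      unfold count
      rw [← hk]
      refine congrArg Finset.card (Finset.ext fun M => ?_)
      rw [Finset.mem_filter]
      exact ⟨fun h => (h5 M h.1).1 h.2, fun h => ⟨hV h, (h5 M (hV h)).2 h⟩⟩
    · rintro ⟨h2, h3, h4, h5⟩
      refine ⟨T.filter fun M => StrongTwo (tw M (dsc n)), ⟨Finset.filter_subset _ _, h5⟩, h2, h3, h4,
        fun M hM => ?_⟩
      rw [Finset.mem_filter]
      exact ⟨fun h => ⟨hM, h⟩, fun h => h.2⟩
  · intro V hV V' hV' hVV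
    refine Finset.disjoint_left.2 fun n hn hn' => hVV ?_
    have a1 := (mf hn).2.2.2
    have a2 := (mf hn').2.2.2
    have b1 := (Finset.mem_powersetCard.1 hV).1
    have b2 := (Finset.mem_powersetCard.1 hV').1
    ext M
    constructor
    · intro h
      exact (a2 M (b1 h)).1 ((a1 M (b1 h)).2 h)
    · intro h
      exact (a1 M (b2 h)).1 ((a2 M (b2 h)).2 h)

/-- twists with equal differences have a common class -/
theorem common {T : Finset ℤ} (hT : ∀ M ∈ T, Fam M) {v : ℤ}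
    (h : ∀ M ∈ T, (nA M : ℤ) - nB M = v) : ∃ D : ℤ, Balanced T D := by
  classical
  set b : ℕ := ∏ p ∈ T.biUnion fun M => Ps M, p with hb
  have hpr : ∀ p ∈ T.biUnion fun M => Ps M, p.Prime := by
    intro p hp
    obtain ⟨M, hM, hpM⟩ := Finset.mem_biUnion.1 hp
    exact ((admZ (hT M hM)).pm p hpM).1
  have hb0 : 0 < b := Finset.prod_pos fun p hp => (hpr p hp).pos
  obtain ⟨c, X₀, hc, hX⟩ := Pool.Agent.NH4.PF.f_Low b 1 (-v) ⟨hb0, Or.inl rfl⟩
  have h1 := hX (max X₀ 16) (le_max_left _ _)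
  have h2 : 0 < c * ((max X₀ 16 : ℕ) : ℝ) / Real.sqrt (Pool.Agent.Y703.CX.eL (max X₀ 16)) := by
    have h3 : 0 < Pool.Agent.Y703.CX.eL (max X₀ 16) :=
      Pool.Agent.NH4.PF.eL_pos (le_max_right _ _)
    have h4 : (0 : ℝ) < ((max X₀ 16 : ℕ) : ℝ) := by
      have : 0 < max X₀ 16 := lt_of_lt_of_le (by norm_num) (le_max_right X₀ 16)
      exact_mod_cast this
    exact div_pos (mul_pos hc h4) (Real.sqrt_pos.2 h3)
  have h3 : 0 < (Pool.Agent.NH4.PJ.SS b 1 (-v) (max X₀ 16)).card := by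
    exact_mod_cast lt_of_lt_of_le h2 h1
  obtain ⟨S, hS⟩ := Finset.card_pos.1 h3
  have hS1 := (Finset.mem_filter.1 hS).2.1
  have hPm : PmS S := by
    intro p hp
    obtain ⟨g1, g2⟩ := hS1.1 p hp
    refine ⟨g1, ?_, ?_⟩
    · rintro rfl
      exact g2 (Dvd.dvd.mul_right (by norm_num) _)
    · rintro rfl
      exact g2 (Dvd.dvd.mul_right (by norm_num) _)
  have hfam : Fam (DS S) := hPm.adm
  have hPs : Ps (DS S) = S := hPm.pf
  refine ⟨DS S, hfam, fun M hM => ?_⟩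
  rw [bal_iff _ (hT M hM) hfam, hPs]
  have hdis : Disjoint S (Ps M) := by
    rw [Finset.disjoint_left]
    intro p hp hpM
    have hd : p ∣ b := Finset.dvd_prod_of_mem (fun p => p) (Finset.mem_biUnion.2 ⟨M, hM, hpM⟩)
    exact (hS1.1 p hp).2 (Dvd.dvd.mul_left hd 14)
  have e1 : symmDiff S (Ps M) = S ∪ Ps M := hdis.symmDiff_eq_sup
  rw [e1, Pool.Agent.NH4.PF.dlt_union hdis, hS1.2.1]
  have h5 := h M hM
  rw [nA_eq, nB_eq] at h5
  unfold dlt
  omega

end proof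

theorem result :
    (∀ M D : ℤ, Fam M → Fam D → Fam (tw M D) ∧ M * D = tw M D * (Int.gcd M D : ℤ) ^ 2) ∧
    (∀ (T : Finset ℤ) (v : ℤ), (∀ M ∈ T, Fam M) → (∀ M ∈ T, (nA M : ℤ) - nB M = v) →
      ∃ D : ℤ, Balanced T D) ∧
    (∀ T : Finset ℤ, T.Nonempty → (∀ M ∈ T, Fam M) → (∃ D : ℤ, Balanced T D) →
      ∀ r : ℕ, r = 1 ∨ r = 3 ∨ r = 5 ∨ r = 7 →
        (∃ (c : ℝ) (X₀ : ℕ), 0 < c ∧ ∀ X : ℕ, X₀ ≤ X →
          c * X / √(Real.log (Real.log X)) ≤ (num T (fun _ => True) r X : ℝ)) ∧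
        (∀ V : Finset ℤ, V ⊆ T → Tendsto (fun X : ℕ =>
          (num T (fun D => ∀ M ∈ T, StrongTwo (tw M D) ↔ M ∈ V) r X : ℝ) /
            (num T (fun _ => True) r X : ℝ)) atTop
          (𝓝 (eta ^ V.card * (1 - eta) ^ (T.card - V.card)))) ∧
        (∀ k : ℕ, Tendsto (fun X : ℕ => (num T (fun D => count T D = k) r X : ℝ) /
            (num T (fun _ => True) r X : ℝ)) atTop
          (𝓝 (T.card.choose k * (eta ^ k * (1 - eta) ^ (T.card - k)))))) ∧
    0.2887 < eta ∧ eta < 0.2888 := by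
  refine ⟨fun M D hM hD => ⟨fam_tw hM hD, tw_sq hM hD⟩, fun T v hT h => common hT h,
    fun T hne hT h r hr => ?_, Pool.Agent.NH5.PR.t_ETA.2.2.2.1, Pool.Agent.NH5.PR.t_ETA.2.2.2.2⟩
  obtain ⟨D₀, h0⟩ := h
  exact ⟨size hT hne h0 hr, fun V hV => joint hT hne h0 hr hV, fun k => binom hT hne h0 hr k⟩

end Pool.Agent.Results.MP_4a9ea6_nt.JointTwoPartX14
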