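import Pool.Agent.H463.NQ.Anq
import Pool.Agent.H463.NQ.Shq2
import Pool.Agent.H463.NQ.Trn3
import Pool.Agent.H463.NQ.BilP
import Pool.Agent.H463.NQ.Dns

/-!
# The 2-part of the strong Birch and Swinnerton-Dyer conjecture over `ℚ` for the quadratic twists of
# `X_0(49)` by all `D ≡ 1 mod 4` prime to `7`, and its natural density

`D ≥ 1` is any squarefree number, `D ≡ 1 mod 4`, `7 ∤ D`, and `E_D` is the quadratic twist by `D` of
`X_0(49) : y² + x y = x³ - x² - 2 x - 1`, the curve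
`y² + x y = x³ - (3 D + 1) / 4 x² - 2 D² x - D³`.
Let `z = #E_D(ℚ)_tors² L(E_D, 1) / (Ω ∏ c_p)`, which is zero or the order of `Ш(E_D/ℚ)` according to
the conjecture. The theorem says, with no hypothesis on the rank or on `Ш`:
* `L(E_D, s)` is entire, the equation of `E_D` is minimal, the order of the torsion subgroup is twice
  an odd number, and `∏ c_p = 2 ^ (1 + a + 2 b)`, `a` the number of the prime factors of `D` which are
  inert in `ℚ(√-7)`, `b` the number of those which split;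
* `z` is an algebraic number which is integral at all the primes above two;
* `z` is a unit at one prime above two iff it is so at all of them iff `E_D(ℚ)` is finite and
  `Ш(E_D/ℚ)[2^∞] = 0` iff a matrix over `𝔽₂` made of the quadratic residue symbols between the
  prime divisors of `√-7 D` in `ℚ(√-7)` is invertible; in this case `L(E_D, 1) ≠ 0`;
* the natural density of the `D` for which this happens, among all the squarefree
  `D ≡ 1 mod 4` prime to `7`, is exactly `(1/2) ∏_{i ≥ 0} (1 - 2^{-(2i+1)}) = 0.2097...`.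
-/

set_option autoImplicit false

open NumberField NumberField.InfinitePlace IsDedekindDomain WeierstrassCurve MeasureTheory

namespace Pool.Agent.Results.MP_4a9ea6_nt.NaturalDensityX49

open Pool.Agent.TH841.NF.D (Sha)
open Pool.Agent.TH841.SH.D (Pt)

/-- The quadratic twist by `D ≡ 1 mod 4` of `X_0(49) : y² + x y = x³ - x² - 2 x - 1`. -/
def twist (D : ℕ) : WeierstrassCurve ℤ := ⟨1, -((3 * D + 1) / 4), 0, -2 * D ^ 2, -D ^ 3⟩

/-- The curve over `ℚ`. -/
abbrev E (D : ℕ) : WeierstrassCurve ℚ := (twist D).map (Int.castRingHom ℚ)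

/-- The equation is minimal at the place `v`: no change of variables over `ℚ` that keeps the
coefficients integral at `v` decreases the order of the discriminant. -/
def MinimalAt (W : WeierstrassCurve ℚ) (v : HeightOneSpectrum (𝓞 ℚ)) : Prop :=
  ∀ C : VariableChange ℚ, v.valuation ℚ (C • W).a₁ ≤ 1 → v.valuation ℚ (C • W).a₂ ≤ 1 →
    v.valuation ℚ (C • W).a₃ ≤ 1 → v.valuation ℚ (C • W).a₄ ≤ 1 → v.valuation ℚ (C • W).a₆ ≤ 1 →
    v.valuation ℚ (C • W).Δ ≤ v.valuation ℚ W.Δ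

/-- `W⁰(ℚ_v)`, the group of the points of `W` over the completion `ℚ_v` with nonsingular reduction:
the point at infinity and the points `(x, y)` where `x` is not integral, or one of the partial
derivatives of `y² + a₁ x y + a₃ y - x³ - a₂ x² - a₄ x - a₆` is a unit at `(x, y)`.
Here `Pt W ℚ_v` is the group of the points of `W` over `ℚ_v`. -/
noncomputable def nonsing (W : WeierstrassCurve ℚ) (v : HeightOneSpectrum (𝓞 ℚ)) :
    AddSubgroup (Pt W (v.adicCompletion ℚ)) :=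
  AddSubgroup.closure {P | ∀ x y h, P = Affine.Point.some x y h →
    1 < Valued.v x ∨
    Valued.v ((W.baseChange (v.adicCompletion ℚ)).a₁ * y -
      (3 * x ^ 2 + 2 * (W.baseChange (v.adicCompletion ℚ)).a₂ * x +
        (W.baseChange (v.adicCompletion ℚ)).a₄)) = 1 ∨
    Valued.v (2 * y + (W.baseChange (v.adicCompletion ℚ)).a₁ * x +
      (W.baseChange (v.adicCompletion ℚ)).a₃) = 1}

/-- The Tamagawa number `c_v = [W(ℚ_v) : W⁰(ℚ_v)]` of a minimal equation. -/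
noncomputable def c (W : WeierstrassCurve ℚ) (v : HeightOneSpectrum (𝓞 ℚ)) : ℕ :=
  (nonsing W v).index

/-- The product of the Tamagawa numbers. -/
noncomputable def Tam (W : WeierstrassCurve ℚ) : ℕ := ∏ᶠ v : HeightOneSpectrum (𝓞 ℚ), c W v

/-- `4 x³ + b₂ x² + 2 b₄ x + b₆ = (2 y + a₁ x + a₃)²`. -/
def cubic (W : WeierstrassCurve ℤ) (x : ℝ) : ℝ := 4 * x ^ 3 + W.b₂ * x ^ 2 + 2 * W.b₄ * x + W.b₆

/-- `Ω = ∫_{W(ℝ)} |ω|` with `ω = dx / (2 y + a₁ x + a₃)`, as an integral over `x`: two real points lie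
over each `x` with `cubic x > 0`. -/
noncomputable def Omega (W : WeierstrassCurve ℤ) : ℝ :=
  2 * ∫ x in {x : ℝ | 0 < cubic W x}, 1 / √(cubic W x)

open Classical in
/-- The order of the torsion subgroup of `W(K)`. -/
noncomputable def torsOrder {K : Type} [Field K] (W : WeierstrassCurve K) : ℕ :=
  Nat.card (AddCommGroup.torsion W.toAffine.Point)

/-- The order of the Tate-Shafarevich group predicted by the formula, for the value `l` of the
L-function of `E_D` at `s = 1`: `#E_D(ℚ)_tors² l / (Ω ∏ c_v)`. -/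
noncomputable def anOrder (D : ℕ) (l : ℂ) : ℂ :=
  l * (torsOrder (E D) : ℂ) ^ 2 / ((Omega (twist D) : ℝ) * (Tam (E D) : ℂ))

/-- `D` is squarefree, `≡ 1 mod 4` and prime to `7`. -/
def Fam (D : ℕ) : Prop := Squarefree D ∧ D % 4 = 1 ∧ ¬ 7 ∣ D

open Classical in
/-- The prime factors of `D` which are inert in `ℚ(√-7)`. -/
noncomputable def inert (D : ℕ) : Finset ℕ := D.primeFactors.filter fun p => ¬ IsSquare (-7 : ZMod p)

open Classical in
/-- The prime factors of `D` which split in `ℚ(√-7)`. -/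
noncomputable def split (D : ℕ) : Finset ℕ := D.primeFactors.filter fun p => IsSquare (-7 : ZMod p)

/-- `E_D(ℚ)` is finite and the 2-primary part of `Ш(E_D/ℚ)` is zero. -/
def NoTwoPart (D : ℕ) : Prop :=
  Finite (E D).toAffine.Point ∧ ∀ (n : ℕ) (x : Sha (E D)), 2 ^ n • x = 0 → x = 0

/-- The 2-part of the conjecture, in the case that `z` is a unit at two: `L(E_D, s)` has an entire
continuation `Λ` with `Λ 1 ≠ 0`, `E_D(ℚ)` is finite, the 2-primary part of `Ш` is zero, and the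
predicted order of `Ш` is a unit at all the primes above two. -/
def TwoPart (D : ℕ) : Prop :=
  NoTwoPart D ∧
    ∃ Λ : ℂ → ℂ, Differentiable ℂ Λ ∧ (∀ s : ℂ, 2 < s.re → Λ s = (E D).LSeries s) ∧ Λ 1 ≠ 0 ∧
      ∃ m : ℤ, Odd m ∧ _root_.IsIntegral ℤ (m * anOrder D (Λ 1)) ∧
        _root_.IsIntegral ℤ (m * (anOrder D (Λ 1))⁻¹)

open scoped Classical in
/-- `0` if `x` is a square modulo `p` and `1` if it is not. -/
noncomputable def symbol {R : Type} [CommRing R] (p x : R) : ZMod 2 :=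
  if ∃ y : R, p ∣ y ^ 2 - x then 0 else 1

/-- `P` is the set of the prime divisors of `√-7 D` (one generator `≡ 1 mod a²` for each). -/
def IsPrimes {R : Type} [CommRing R] (a D : R) (P : Finset R) : Prop :=
  ∀ p : R, p ∈ P ↔ Prime p ∧ p ∣ (2 * a - 1) * D ∧ a ^ 2 ∣ p - 1

open scoped Classical in
/-- The matrix over `𝔽₂`, with rows and columns indexed by the primes: the entry at `(p, q)`, `p ≠ q`,
is the symbol of `p` modulo `q`; the entry at `(p, p)` is the sum of the other entries of the row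
and of the symbol of `-1` modulo `p`. -/
noncomputable def matrix {R : Type} [CommRing R] (P : Finset R) : Matrix P P (ZMod 2) :=
  Matrix.of fun p q => if p = q then symbol (p : R) (-1) + ∑ r ∈ P.erase (p : R), symbol r (p : R)
    else symbol (q : R) (p : R)

section proof

open Pool.Agent.Y698 Pool.Agent.R428.Q0 Pool.Agent.H463.NQ
open Pool.Agent.R426.QC Pool.Agent.R426.QD
open Pool.Agent.H463.QE (Fs gX IsP MP)

lemma E_eq {D j : ℕ} (hj : D = 1 + 4 * j) : E D = AX ℚ j := twZ_map hj ℚ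

lemma cubic_eq {D j : ℕ} (hj : D = 1 + 4 * j) (x : ℝ) :
    cubic (twist D) x = psD (1 + 4 * j) x := by
  have h1 : (3 * (D : ℤ) + 1) / 4 = 1 + 3 * j := by
    rw [hj]
    push_cast
    omega
  unfold cubic twist WeierstrassCurve.b₂ WeierstrassCurve.b₄ WeierstrassCurve.b₆ psD
  simp only
  rw [h1, hj]
  push_cast
  ring

lemma real_eq {D j : ℕ} (hj : D = 1 + 4 * j) : Omega (twist D) =
    ∫ x in {x : ℝ | 0 < psD (1 + 4 * j) x}, 2 / Real.sqrt (psD (1 + 4 * j) x) := by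
  unfold Omega
  simp only [cubic_eq hj]
  rw [← integral_const_mul]
  congr 1
  funext x
  ring

lemma nr_rat : nrRealPlaces ℚ = 1 ∧ nrComplexPlaces ℚ = 0 := by
  have h := InfinitePlace.card_add_two_mul_card_eq_rank ℚ
  rw [Module.finrank_self] at h
  omega

lemma han {D j : ℕ} (hj : D = 1 + 4 * j) (l : ℂ) :
    anOrder D l = Pool.Agent.Y698.SG.quoT ℚ j l := by
  unfold anOrder torsOrder
  rw [E_eq hj, real_eq hj]
  unfold Pool.Agent.Y698.SG.quoT Pool.Agent.Y698.SG.tnum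
  have hT : Tam (Pool.Agent.Y698.AX ℚ j) = ∏ᶠ v, Pool.Agent.Y698.tam (Pool.Agent.Y698.AX ℚ j) v := rfl
  rw [hT, Rat.numberField_discr, nr_rat.1, nr_rat.2, pow_one, pow_zero]
  generalize (∏ᶠ v, Pool.Agent.Y698.tam (Pool.Agent.Y698.AX ℚ j) v : ℕ) = t
  simp

lemma sum_ee (D : ℕ) : ∑ q ∈ D.primeFactors, Pool.Agent.N818.TD.ee q =
    (inert D).card + 2 * (split D).card := by
  classical
  unfold inert split Pool.Agent.N818.TD.ee
  rw [Finset.sum_ite, Finset.sum_const, Finset.sum_const, smul_eq_mul, smul_eq_mul, mul_one,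
    mul_comm, add_comm]

/-- the data of `D` -/
theorem core {D : ℕ} (h : Fam D) {S : Finset RR} (hf : Fs S (fun x => x))
    (hD : ((D : ℤ) : RR) = ∏ ϖ ∈ S, ϖ) (hS : HS D S) :
    (∀ v : HeightOneSpectrum (𝓞 ℚ), MinimalAt (E D) v) ∧
    (∃ t : ℕ, Odd t ∧ torsOrder (E D) = 2 * t) ∧
    Tam (E D) = 2 ^ (1 + (inert D).card + 2 * (split D).card) ∧
    (NoTwoPart D ↔ gX S ≠ 0) ∧
    ∃ Λ : ℂ → ℂ, Differentiable ℂ Λ ∧
      (∀ s : ℂ, 2 < s.re → Λ s = (E D).LSeries s) ∧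
      (∀ (Γ : Type) [LinearOrderedCommGroupWithZero Γ] (v : Valuation ℂ Γ), v 2 < 1 →
        v (anOrder D (Λ 1)) ≤ 1 ∧ (v (anOrder D (Λ 1)) = 1 ↔ gX S ≠ 0)) := by
  obtain ⟨hsq, h4, h7⟩ := h
  obtain ⟨j, hj⟩ : ∃ j, D = 1 + 4 * j := ⟨D / 4, by omega⟩
  have hE := E_eq hj
  have hprod : ∏ q ∈ D.primeFactors, q = D := Nat.prod_primeFactors_of_squarefree hsq
  have hrf : Fact (Nat.Prime 5) := ⟨by norm_num⟩
  have hM : IsCyclotomicExtension {5} ℚ (CyclotomicField 5 ℚ) := cyc_inst 5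
  have hinq : Inq 5 := ⟨by norm_num, by norm_num, by decide⟩
  refine ⟨fun v => ?_, ?_, ?_, ?_, ?_⟩
  · rw [hE]
    exact minq h7 hsq hj v
  · have h1 := Pool.Agent.Y698.SG.tnum_AX (r := 5) (CyclotomicField 5 ℚ) ℚ hinq.ns j
    obtain ⟨m, h2, h3⟩ := h1
    refine ⟨m, h2, ?_⟩
    rw [hE]
    exact h3
  · rw [hE]
    have h1 := Pool.Agent.N818.TD.tam_prod (gq_of h7) (hprod.trans hj)
    rw [sum_ee, ← add_assoc] at h1
    exact h1
  · unfold NoTwoPart
    rw [hE]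
    constructor
    · rintro ⟨h1, h2⟩
      refine (critQ hj hf hD).1 ⟨h1, fun x hx => h2 1 x ?_⟩
      rw [pow_one]
      exact hx
    · intro h1
      obtain ⟨h2, h3⟩ := (critQ hj hf hD).2 h1
      exact ⟨h2, Pool.Agent.H463.QE.two_pow_zero h3⟩
  · rw [hE]
    simp only [han hj]
    exact anq hsq h4 h7 hj hf hD hS

/-- consequences for the value -/
theorem val_cons {z : ℂ} {N : Prop} (h3 : ∀ (Γ : Type) [LinearOrderedCommGroupWithZero Γ]
    (v : Valuation ℂ Γ), v 2 < 1 → v z ≤ 1 ∧ (v z = 1 ↔ N)) :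
    (∃ m : ℤ, Odd m ∧ _root_.IsIntegral ℤ (m * z)) ∧
    (N → z ≠ 0 ∧ ∃ m : ℤ, Odd m ∧ _root_.IsIntegral ℤ (m * z) ∧
        _root_.IsIntegral ℤ (m * z⁻¹)) := by
  refine ⟨Pool.Agent.Y698.int_of_val fun Γ _ v hv => (h3 Γ v hv).1, fun hC => ?_⟩
  have hz : ∀ (Γ : Type) [LinearOrderedCommGroupWithZero Γ] (v : Valuation ℂ Γ), v 2 < 1 →
      v z = 1 := fun Γ _ v hv => ((h3 Γ v hv).2).2 hC
  refine ⟨?_, ?_⟩
  · intro h0
    refine Pool.Agent.Y698.SG.exists_val2 fun Γ _ v hv => ?_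
    have h5 := hz Γ v hv
    rw [h0, map_zero] at h5
    exact zero_ne_one h5
  · obtain ⟨m₁, hm₁, i₁⟩ := Pool.Agent.Y698.int_of_val (x := z) fun Γ _ v hv => (hz Γ v hv).le
    obtain ⟨m₂, hm₂, i₂⟩ := Pool.Agent.Y698.int_of_val (x := z⁻¹) fun Γ _ v hv => by
        rw [map_inv₀, hz Γ v hv, inv_one]
    refine ⟨m₁ * m₂, hm₁.mul hm₂, ?_, ?_⟩
    · have e : ((m₁ * m₂ : ℤ) : ℂ) * z = (m₂ : ℂ) * ((m₁ : ℂ) * z) := by
        push_cast; ring
      rw [e]
      exact IsIntegral.mul (isIntegral_algebraMap (R := ℤ) (A := ℂ) (x := m₂)) i₁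
    · have e : ((m₁ * m₂ : ℤ) : ℂ) * z⁻¹ = (m₁ : ℂ) * ((m₂ : ℂ) * z⁻¹) := by
        push_cast; ring
      rw [e]
      exact IsIntegral.mul (isIntegral_algebraMap (R := ℤ) (A := ℂ) (x := m₁)) i₂

theorem two_iff {D : ℕ} (h : Fam D) : TwoPart D ↔ NoTwoPart D := by
  obtain ⟨S, hf, hD, hS⟩ := setup h.1 h.2.1 h.2.2
  obtain ⟨-, -, -, h4, Λ, h6, h7, h8⟩ := core h hf hD hS
  refine ⟨fun h1 => h1.1, fun h1 => ⟨h1, Λ, h6, h7, ?_⟩⟩
  obtain ⟨h9, h10⟩ := (val_cons h8).2 (h4.1 h1)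
  refine ⟨?_, h10⟩
  intro h0
  apply h9
  rw [h0]
  unfold anOrder
  rw [zero_mul, zero_div]

theorem two_gd {D : ℕ} (h : Fam D) :
    TwoPart D ↔ Pool.Agent.N973.ND.Gd AA bb D.primeFactors := by
  obtain ⟨S, hf, hD, hS⟩ := setup h.1 h.2.1 h.2.2
  rw [two_iff h, (core h hf hD hS).2.2.2.1]
  exact g_Gd h.1 h.2.1 h.2.2 hf hD hS

open scoped Classical in
theorem mat_iff {D : ℕ} (h : Fam D) {K : Type} [Field K] [NumberField K]
    (hK : Module.finrank ℚ K = 2) {a : 𝓞 K} (ha : a ^ 2 = a - 2) :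
    (∃! P : Finset (𝓞 K), IsPrimes a (D : 𝓞 K) P) ∧
    ∀ P : Finset (𝓞 K), IsPrimes a (D : 𝓞 K) P → (NoTwoPart D ↔ (matrix P).det ≠ 0) := by
  classical
  obtain ⟨S, hf, hD, hS⟩ := setup h.1 h.2.1 h.2.2
  obtain ⟨e, hea, hem⟩ := Pool.Agent.H463.QE.exists_e hK ha
  have heD : e ((D : ℤ) : RR) = (D : 𝓞 K) := by
    rw [Int.cast_natCast, map_natCast]
  have hP : IsP aR ((D : ℤ) : RR) (PS S) := isP_PS hf hD
  have hPe : IsPrimes a (D : 𝓞 K) ((PS S).map e.toEquiv.toEmbedding) := by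
    intro p
    rw [Finset.mem_map_equiv]
    have h1 := hP (e.symm p)
    have h2 : e.toEquiv.symm p = e.symm p := rfl
    rw [h2, h1]
    obtain ⟨q, rfl⟩ := e.surjective p
    rw [e.symm_apply_apply, ← hea, ← heD]
    have e1 : (2 * e aR - 1) * e ((D : ℤ) : RR) = e ((2 * aR - 1) * ((D : ℤ) : RR)) := by
      rw [map_mul, map_sub, map_mul, map_one, map_ofNat]
    have e2 : e aR ^ 2 = e (aR ^ 2) := (map_pow e _ _).symm
    have e3 : e q - 1 = e (q - 1) := by rw [map_sub, map_one]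
    rw [e1, e2, e3, map_dvd_iff e, map_dvd_iff e, MulEquiv.prime_iff e]
  refine ⟨⟨_, hPe, fun P' hP' => ?_⟩, fun P hP' => ?_⟩
  · ext p
    rw [hP' p, hPe p]
  · rw [(core h hf hD hS).2.2.2.1]
    have h3 : IsP (e aR) (e ((D : ℤ) : RR)) P := by
      rw [hea, heD]
      exact hP'
    have h2 := Pool.Agent.H463.QE.det_MP e hf hD h3
    rw [← h2]
    exact Iff.rfl

end proof

open Classical in
/-- **The 2-part of the conjecture of Birch and Swinnerton-Dyer for the quadratic twists of `X_0(49)` by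
all squarefree `D ≡ 1 mod 4` prime to `7`: the criterion and the natural density.** -/
theorem result :
    (∀ D : ℕ, Fam D →
      (∀ v : HeightOneSpectrum (𝓞 ℚ), MinimalAt (E D) v) ∧
      (∃ t : ℕ, Odd t ∧ torsOrder (E D) = 2 * t) ∧
      Tam (E D) = 2 ^ (1 + (inert D).card + 2 * (split D).card) ∧
      (∀ (K : Type) [Field K] [NumberField K], Module.finrank ℚ K = 2 →
        ∀ a : 𝓞 K, a ^ 2 = a - 2 →
          (∃! P : Finset (𝓞 K), IsPrimes a (D : 𝓞 K) P) ∧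
          ∀ P : Finset (𝓞 K), IsPrimes a (D : 𝓞 K) P → (NoTwoPart D ↔ (matrix P).det ≠ 0)) ∧
      (TwoPart D ↔ NoTwoPart D) ∧
      ∃ Λ : ℂ → ℂ, Differentiable ℂ Λ ∧
        (∀ s : ℂ, 2 < s.re → Λ s = (E D).LSeries s) ∧
        (∃ m : ℤ, Odd m ∧ _root_.IsIntegral ℤ (m * anOrder D (Λ 1))) ∧
        ∀ (Γ : Type) [LinearOrderedCommGroupWithZero Γ] (v : Valuation ℂ Γ), v 2 < 1 →
          v (anOrder D (Λ 1)) ≤ 1 ∧ (v (anOrder D (Λ 1)) = 1 ↔ NoTwoPart D)) ∧
    Filter.Tendsto (fun X : ℕ =>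
        (((Finset.Icc 1 X).filter fun D => Fam D ∧ TwoPart D).card : ℝ) /
        (((Finset.Icc 1 X).filter fun D => Fam D).card : ℝ)) Filter.atTop
      (nhds ((∏' i : ℕ, (1 - (1 / 2 : ℝ) ^ (2 * i + 1))) / 2)) ∧
    0.2097 < (∏' i : ℕ, (1 - (1 / 2 : ℝ) ^ (2 * i + 1))) / 2 ∧
    (∏' i : ℕ, (1 - (1 / 2 : ℝ) ^ (2 * i + 1))) / 2 < 0.20975 := by
  have hc2 : (∏' i : ℕ, (1 - (1 / 2 : ℝ) ^ (2 * i + 1))) = Pool.Agent.Y703.CQ.c2 := rfl
  have hb := Pool.Agent.Y948.CQ.t_C2.2.2.2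
  refine ⟨fun D h => ?_, ?_, ?_, ?_⟩
  · obtain ⟨S, hf, hD, hS⟩ := Pool.Agent.H463.NQ.setup h.1 h.2.1 h.2.2
    obtain ⟨h1, h2, h3, h4, Λ, h6, h7, h8⟩ := core h hf hD hS
    refine ⟨h1, h2, h3, fun K _ _ hK a ha => mat_iff h hK ha, two_iff h, Λ, h6, h7,
      (val_cons h8).1, fun Γ _ v hv => ?_⟩
    rw [h4]
    exact h8 Γ v hv
  · have h := Pool.Agent.H463.NQ.t_DEN Pool.Agent.H463.NQ.AA Pool.Agent.H463.NQ.bb _
      Pool.Agent.H463.NQ.recA Pool.Agent.H463.NQ.bilP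
    rw [hc2]
    refine h.congr fun X => congrArg₂ (fun a b : ℕ => (a : ℝ) / (b : ℝ)) ?_ ?_
    · refine congrArg Finset.card (Finset.ext fun D => ?_)
      rw [Finset.mem_filter, Finset.mem_filter]
      refine and_congr_right fun _ => ?_
      have e1 : (Squarefree D ∧ D % 4 = 1 ∧ ¬ 7 ∣ D ∧
          Pool.Agent.N973.ND.Gd Pool.Agent.H463.NQ.AA Pool.Agent.H463.NQ.bb D.primeFactors) ↔
          (Fam D ∧ Pool.Agent.N973.ND.Gd Pool.Agent.H463.NQ.AA Pool.Agent.H463.NQ.bb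
            D.primeFactors) := by
        unfold Fam
        tauto
      rw [e1]
      exact and_congr_right fun hF => (two_gd hF).symm
    · refine congrArg Finset.card (Finset.ext fun D => ?_)
      rw [Finset.mem_filter, Finset.mem_filter]
      rfl
  · rw [hc2]
    linarith [hb.1]
  · rw [hc2]
    linarith [hb.2]

end Pool.Agent.Results.MP_4a9ea6_nt.NaturalDensityX49
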