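import Pool.Agent.H468.WN.Cur
import Pool.Agent.H468.WJ.Lim

/-!
# The joint distribution of the orders of the Tate-Shafarevich groups for SIMULTANEOUS quadratic twists of
# the curves of conductor 17, and the 2-part of the strong Birch and Swinnerton-Dyer conjecture

For a squarefree integer `m` (positive or negative, no condition) let `W 0 m`, `W 1 m`, `W 2 m`, `W 3 m` be the
minimal equations of the four elliptic curves isogenous to the quadratic twist by `m` of `X_0(17)`: `W 0 m`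
is the twist of `X_0(17)` itself, `W 3 m` is `y² = x (x + m) (x - 16 m)`.  `All m` is the event that the
2-part of the strong Birch and Swinnerton-Dyer conjecture holds, with `L(1) ≠ 0`, for the four curves: finitely
many rational points, `L(1) ≠ 0`, `Ш[2^∞]` is killed by `2` and of an explicit order (`1` for `W 3 m`), and the
order of `Ш` predicted by the formula is this order times the square of an odd integer.

Let `T` be a finite set of squarefree integers `t` (the simultaneous twists, by `t m`), `P` a class of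
squarefree integers `m` given by conditions at finitely many places and by the root numbers of the twists
by `t m`, `t ∈ T`, `T⁺` the set of the `t ∈ T` with root number `1`, `A` any subset of `T⁺`, and `Pat T A m`
the event that `All (t m)` holds for the `t ∈ A` and fails for the `t ∈ T \ A`.  Put
`κ = c ^ #A (1 - c) ^ #(T⁺ \ A)`, `c = (1 - 1/2) (1 - 1/8) (1 - 1/32) ⋯ = 0.4194...`.  Or let `T = A = {1}`, `P` the set
of ALL squarefree integers, and `κ = c / 2`.  We prove:

(1) **The joint law, and independence of the prime factors.**  The pattern `Pat T A m` has the proportion `κ`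
among the `m ∈ P`: the events `All (t m)`, `t ∈ T⁺`, are independent, with the probability `c`.  Moreover they
are independent of the numbers `cls q m a` of the odd prime factors of `m` in the residue classes `a` modulo
`q`, for every `q`, in the strongest sense: the two laws are close in total variation, i.e. the number of the
`m ∈ P`, `|m| ≤ X`, with `Pat T A m` and `cls q m ∈ V` is `κ` times the number of those with `cls q m ∈ V`, up to
`o(X)`, uniformly in ALL the sets `V ⊆ ℕ^ℕ` (which may depend on `X`).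

(2) **The joint law of the orders of the Tate-Shafarevich groups of the simultaneous twists.**  Let
`lg j n = log₂ #Ш(W j n)[2^∞]`, `j = 0, 1, 2`.  For the `m ∈ P` with `Pat T A m` the numbers `lg j (t m)`,
`j = 0, 1, 2`, `t ∈ A`, are asymptotically jointly normal, with the means `(1/2) log log X` and the covariances
`M j j' log log X` (for `(j, t)` and `(j', t')`, whatever `t, t' ∈ A` are), where
`M = [[1/2, 1/4, 1/4], [1/4, 1/2, 1/2], [1/4, 1/2, 1/2]]`: for any number of linear forms `s i` in these variables,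
uncorrelated and with positive variances, the proportion among the `m ∈ P`, `|m| ≤ X`, of those with
`Pat T A m` and `∑ t ∈ A, ∑ j, s i t j lg j (t m) ≤ mean log log X + y i √(variance log log X)` for all `i` tends to
`κ ∏ i, Φ (y i)`.  In particular (one form) each of the three orders has a log-normal law, `log₂` of it having
the mean and the variance `(1/2) log log X`; (two forms, `lg 0 + lg 1` and `lg 0 - lg 1`) the product and the
quotient of the orders for `X_0(17)^m` and `W 1 m` are asymptotically independent, with the variances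
`3/2` and `1/2`; the correlation coefficient of the orders for `W 0 m` and `W 1 m` is `1/2`, that for `W 1 m`,
`W 2 m` is `1`, and that for the twists `W j (t m)`, `W j (t' m)` is `1`.

Proof.  (1): helper743's joint law for the matrices of the simultaneous twists (`Pool/Agent/H743/JL`), with a
condition on the numbers of the prime factors in the classes which is carried through the whole argument
(`Pool/Agent/H468/WM`, `Pool/Agent/H468/WJ`).  (2): a joint Erdős–Kac theorem for several additive functions on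
the squarefree integers in residue classes with moving thresholds (characteristic functions;
`Pool/Agent/H468/WV`, `WN`), and the exponents of helper743 (`Pool/Agent/H743/X17`).
-/

set_option autoImplicit false

open Filter Topology MeasureTheory ProbabilityTheory

namespace Pool.Agent.Results.MP_4a9ea6_nt.ShaOrdersX17

open Pool.Agent.TH841.SH.D (Sha)

/-! ### the curves -/

/-- the minimal equations of the four curves, `m` squarefree.  They are, up to a change of variables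
`(4 x + m) (x² + 8 m x + 20 m²)`, `x (4 x² + 9 m x + 4 m²)`, `(4 x + m) (x² - 16 m x - 4 m²)` and
`x (4 x + m) (x - 4 m)` equal to `y²` -/
def W (j : Fin 4) (m : ℤ) : WeierstrassCurve ℤ := match j with
  | 0 => if m % 4 = 1 then ⟨1, (33 * m - 1) / 4, 0, 22 * m ^ 2, 5 * m ^ 3⟩
    else ⟨0, 33 * m, 0, 352 * m ^ 2, 320 * m ^ 3⟩
  | 1 => if m % 4 = 1 then ⟨1, (9 * m - 1) / 4, 0, m ^ 2, 0⟩ else ⟨0, 9 * m, 0, 16 * m ^ 2, 0⟩
  | 2 => if m % 4 = 1 then ⟨1, (-63 * m - 1) / 4, 0, -8 * m ^ 2, -m ^ 3⟩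
    else ⟨0, -63 * m, 0, -128 * m ^ 2, -64 * m ^ 3⟩
  | 3 => if m % 4 = 1 then ⟨1, -((15 * m + 1) / 4), 0, -m ^ 2, 0⟩
    else ⟨0, -15 * m, 0, -16 * m ^ 2, 0⟩

/-- the curve over `ℚ` -/
abbrev E (j : Fin 4) (m : ℤ) : WeierstrassCurve ℚ := (W j m).map (Int.castRingHom ℚ)

/-- the equation is minimal: `Δ ≠ 0` and `|Δ|` is minimal among the integral equations -/
def IsMinimal (V : WeierstrassCurve ℤ) : Prop :=
  V.Δ ≠ 0 ∧ ∀ (V' : WeierstrassCurve ℤ) (C : WeierstrassCurve.VariableChange ℚ),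
    C • (V.map (Int.castRingHom ℚ)) = V'.map (Int.castRingHom ℚ) → |V.Δ| ≤ |V'.Δ|

/-- `a_p = p - #{affine points modulo p}` -/
noncomputable def ap (V : WeierstrassCurve ℤ) (p : ℕ) : ℤ :=
  p - (Nat.card {P : ZMod p × ZMod p //
    (V.map (Int.castRingHom (ZMod p))).toAffine.Equation P.1 P.2} : ℕ)

/-- `Λ` is entire and it is the Hasse-Weil L-function of the minimal equation `V` -/
def IsL (V : WeierstrassCurve ℤ) (Λ : ℂ → ℂ) : Prop :=
  Differentiable ℂ Λ ∧ ∀ s : ℂ, 3 / 2 < s.re →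
    HasProd (fun p : Nat.Primes => (1 - (ap V p : ℂ) * ((p : ℕ) : ℂ) ^ (-s) +
      (if ((p : ℕ) : ℤ) ∣ V.Δ then 0 else ((p : ℕ) : ℂ) ^ (1 - 2 * s)))⁻¹) (Λ s)

/-- `4 x³ + b₂ x² + 2 b₄ x + b₆ = (2 y + a₁ x + a₃)²` -/
noncomputable def cubic (V : WeierstrassCurve ℤ) (x : ℝ) : ℝ :=
  4 * x ^ 3 + V.b₂ * x ^ 2 + 2 * V.b₄ * x + V.b₆

/-- `Ω = ∫_{E(ℝ)} |ω|`, `ω = dx / (2 y + a₁ x + a₃)`; two real points lie over each `x` with
`cubic x > 0` -/
noncomputable def Omega (V : WeierstrassCurve ℤ) : ℝ :=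
  ∫ x in {x : ℝ | 0 < cubic V x}, 2 / Real.sqrt (cubic V x)

/-- the reduction of the point `(x, y)` modulo `p` is the singular point -/
def Sing (V : WeierstrassCurve ℤ) (p : ℕ) [Fact p.Prime] (x y : ℚ_[p]) : Prop :=
  ‖x‖ ≤ 1 ∧ ‖y‖ ≤ 1 ∧ ‖V.a₁ * y - (3 * x ^ 2 + 2 * V.a₂ * x + V.a₄)‖ < 1 ∧
    ‖2 * y + V.a₁ * x + V.a₃‖ < 1

open scoped Classical in
/-- the Tamagawa number `[E(ℚ_p) : E_0(ℚ_p)]`, `E_0(ℚ_p)` the group generated by the points with
nonsingular reduction -/
noncomputable def tam (V : WeierstrassCurve ℤ) (p : ℕ) [Fact p.Prime] : ℕ :=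
  (AddSubgroup.closure {P : (V.map (Int.castRingHom ℚ_[p])).toAffine.Point |
    ∀ (x y : ℚ_[p]) (h), P = .some x y h → ¬ Sing V p x y}).index

/-- the product of the Tamagawa numbers over the primes which divide the discriminant -/
noncomputable def Tam (V : WeierstrassCurve ℤ) : ℕ :=
  ∏ p ∈ V.Δ.natAbs.primeFactors, if h : p.Prime then (haveI := Fact.mk h; tam V p) else 1

/-- the order of the torsion subgroup -/
noncomputable def tors (j : Fin 4) (m : ℤ) : ℕ :=
  Nat.card (AddCommGroup.torsion (E j m).toAffine.Point)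

/-- `L^an` for rank `0`: the value `l` at `s = 1` divided by `Ω` -/
noncomputable def Lan (j : Fin 4) (m : ℤ) (l : ℂ) : ℂ := l / (Omega (W j m) : ℝ)

/-- `L^alg = #Ш Tam / #tors²` -/
noncomputable def Lalg (j : Fin 4) (m : ℤ) : ℚ :=
  Nat.card (Sha (E j m)) * Tam (W j m) / (tors j m : ℚ) ^ 2

/-- the order of `Ш` predicted by the formula for rank `0`: `#tors² L^an / Tam` -/
noncomputable def anSha (j : Fin 4) (m : ℤ) (l : ℂ) : ℂ :=
  Lan j m l * (tors j m : ℂ) ^ 2 / (Tam (W j m) : ℂ)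

/-- the order of `Ш[2^∞]` -/
noncomputable def sha2 (j : Fin 4) (m : ℤ) : ℕ :=
  Nat.card {x : Sha (E j m) // ∃ n : ℕ, 2 ^ n • x = 0}

/-- the root number is `1` -/
def Root (m : ℤ) : Prop := (0 < m ∧ jacobiSym m 17 = 1) ∨ (m < 0 ∧ jacobiSym m 17 ≠ 1)

/-! ### the criterion and the exponents -/

/-- the absolute value of the discriminant of `ℚ(√m)`, `m` squarefree -/
def disc (m : ℤ) : ℕ := if m % 4 = 1 then m.natAbs else 4 * m.natAbs

/-- the primes ramified in `ℚ(√m)` -/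
def R (m : ℤ) : Finset ℕ := (disc m).primeFactors

/-- the prime discriminant `q*` of `ℚ(√m)`, `q ∈ R m` -/
def star (m : ℤ) (q : ℕ) : ℤ :=
  if q = 2 then (if m % 4 = 3 then -4 else if m % 8 = 2 then 8 else -8)
  else if q % 4 = 1 then q else -q

/-- the Kronecker symbol `(q* / p)`, `p ≠ q`, written additively -/
def sym (m : ℤ) (q p : ℕ) : ZMod 2 :=
  if p = 2 then (if star m q % 8 = 1 ∨ star m q % 8 = 7 then 0 else 1)
  else (if jacobiSym (star m q) p = 1 then 0 else 1)

/-- the Rédei matrix: `(q* / p)` outside of the diagonal, and the sums of the rows are zero -/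
def L (m : ℤ) (p q : ℕ) : ZMod 2 := if p = q then ∑ r ∈ (R m).erase p, sym m r p else sym m q p

/-- the sign of `q*`, written additively -/
def sg (m : ℤ) (q : ℕ) : ZMod 2 := if star m q < 0 then 1 else 0

/-- the Kronecker symbol `(17 / p)`, written additively -/
def nu (p : ℕ) : ZMod 2 := if p = 2 then 0 else if jacobiSym 17 p = 1 then 0 else 1

/-- **The criterion**: the homogeneous system over `𝔽₂` with the symmetric matrix
`[[diag (17/p), L], [Lᵀ, diag (sign of q*)]]`, without the row and the column of the first block which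
belong to `17`, has only the trivial solution. -/
def Good (m : ℤ) : Prop := ∀ x y : ℕ → ZMod 2, x 17 = 0 →
  (∀ p ∈ (R m).erase 17, nu p * x p + ∑ q ∈ R m, L m p q * y q = 0) →
  (∀ q ∈ R m, ∑ p ∈ R m, L m p q * x p + sg m q * y q = 0) →
  ∀ p ∈ R m, x p = 0 ∧ y p = 0

/-- the number of the negative prime discriminants -/
def neg (m : ℤ) : ℕ := ((R m).filter fun q => sg m q = 1).card

/-- the number of the ramified primes `p ≠ 17` with `(17/p) = -1` -/
def non (m : ℤ) : ℕ := (((R m).erase 17).filter fun p => nu p = 1).card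

/-- `((m/17) / 17)`, written additively -/
def r17 (m : ℤ) : ℕ := if jacobiSym (m / 17) 17 = 1 then 0 else 1

/-- the exponents: `#Ш[2^∞] = 2 ^ (ex j m - 2)` if `Good m` -/
def ex (j : Fin 4) (m : ℤ) : ℕ := match j with
  | 0 => if 0 < m then neg m else neg m + 1
  | 1 => if 0 < m then non m else if (17 : ℤ) ∣ m then non m + r17 m else non m + 1
  | 2 => if 0 < m then non m + 2 else if (17 : ℤ) ∣ m then non m + r17 m else non m + 1
  | 3 => 2

/-! ### the 2-part of the conjecture -/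

/-- the `2`-part of the conjecture with `L(1) ≠ 0`: `E(ℚ)` is finite, `Ш[2^∞]` is killed by `2` and has the
order `2 ^ (ex j m - 2)`, `L(1) ≠ 0`, the predicted order of `Ш` is `#Ш[2^∞]` times the square of an odd
number, and `n L^an = k L^alg` for odd numbers `k`, `n` if `Ш` is finite -/
def TwoPart (j : Fin 4) (m : ℤ) : Prop :=
  Finite (E j m).toAffine.Point ∧ (∀ (n : ℕ) (x : Sha (E j m)), 2 ^ n • x = 0 → 2 • x = 0) ∧
    2 ≤ ex j m ∧ sha2 j m = 2 ^ (ex j m - 2) ∧
    ∃ Λ : ℂ → ℂ, IsL (W j m) Λ ∧ Λ 1 ≠ 0 ∧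
      (∃ y : ℕ, Odd y ∧ anSha j m (Λ 1) = sha2 j m * (y : ℂ) ^ 2) ∧
      (Finite (Sha (E j m)) → ∃ k n : ℕ, Odd k ∧ Odd n ∧
        n * Lan j m (Λ 1) = k * ((Lalg j m : ℚ) : ℂ))

/-! ### the classes, the prime factors and the laws -/

open Classical in
/-- the number of the squarefree integers `m`, `|m| ≤ X`, with the property `P` -/
noncomputable def num (P : ℤ → Prop) (X : ℕ) : ℕ :=
  ((Finset.Icc (-(X : ℤ)) X).filter fun m => Squarefree m ∧ P m).card

/-- `m` and `d₀` have the same class in `ℚ_p^×` modulo squares for `p ∈ S`, and the same sign if `inf` -/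
def SameClass (inf : Prop) (S : Finset ℕ) (d₀ m : ℤ) : Prop :=
  (inf → 0 < m * d₀) ∧ ∀ (p : ℕ) [Fact p.Prime], p ∈ S → IsSquare ((m * d₀ : ℤ) : ℚ_[p])

/-- the 2-part of the conjecture holds for the four curves -/
def All (m : ℤ) : Prop := ∀ j, TwoPart j m

/-- the constant `(1 - 1/2) (1 - 1/8) (1 - 1/32) ⋯ = 0.4194...` -/
noncomputable def c : ℝ := ∏' i : ℕ, (1 - (1 / 2 : ℝ) ^ (2 * i + 1))

/-- the squarefree part of the product of the squarefree integers `t` and `m` -/
def tw (t m : ℤ) : ℤ := t * m / (Int.gcd t m : ℤ) ^ 2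

/-- the pattern: the 2-part holds for the twists by `t m`, `t ∈ A`, and not for those with `t ∈ T \ A` -/
def Pat (T A : Finset ℤ) (m : ℤ) : Prop := ∀ t ∈ T, (All (tw t m) ↔ t ∈ A)

open Classical in
/-- the `t ∈ T` such that the twist by `t m` has the root number `1` -/
noncomputable def plus (T : Finset ℤ) (m : ℤ) : Finset ℤ := T.filter fun t => Root (tw t m)

/-- the class of `d₀`: the same class at the given places, and the same root numbers of the twists by `t m`,
`t ∈ T` -/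
def Cls (T : Finset ℤ) (inf : Prop) (S : Finset ℕ) (d₀ m : ℤ) : Prop :=
  (∀ t ∈ T, (Root (tw t m) ↔ Root (tw t d₀))) ∧ SameClass inf S d₀ m

/-- the twists `T`, the patterns `A`, the sets of integers `P` and the proportions `κ`: `T = A = {1}`, all the
integers and `c / 2`; or a finite set `T` of squarefree integers, the class of an integer `d₀`, a subset `A` of
`plus T d₀` and `c ^ #A (1 - c) ^ #(plus T d₀ \ A)` -/
def IsClass (T A : Finset ℤ) (P : ℤ → Prop) (κ : ℝ) : Prop :=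
  (T = {1} ∧ A = {1} ∧ (P = fun _ => True) ∧ κ = c / 2) ∨
    ∃ (inf : Prop) (S : Finset ℕ) (d₀ : ℤ), (∀ t ∈ T, Squarefree t) ∧ (∀ p ∈ S, p.Prime) ∧ Squarefree d₀ ∧
      A ⊆ plus T d₀ ∧ P = Cls T inf S d₀ ∧ κ = c ^ A.card * (1 - c) ^ (plus T d₀ \ A).card

/-- the number of the odd prime factors of `m` which are `a` modulo `q` -/
def cls (q : ℕ) (m : ℤ) (a : ℕ) : ℕ := ((m.natAbs.primeFactors.erase 2).filter fun p => p % q = a).card

/-- `log₂ #Ш(W j m)[2^∞]`, `j = 0, 1, 2` -/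
noncomputable def lg (j : Fin 3) (m : ℤ) : ℝ := Real.logb 2 (sha2 (Fin.castSucc j) m)

/-- the coefficients, summed over the twists `t ∈ A` -/
noncomputable def tot (A : Finset ℤ) (s : ℤ → Fin 3 → ℝ) (j : Fin 3) : ℝ := ∑ t ∈ A, s t j

/-- the mean of the linear form `s` for the vector `(1/2, 1/2, 1/2)` -/
noncomputable def mean (s : Fin 3 → ℝ) : ℝ := (s 0 + s 1 + s 2) / 2

/-- the covariance of the linear forms `s`, `t` for the matrix
`[[1/2, 1/4, 1/4], [1/4, 1/2, 1/2], [1/4, 1/2, 1/2]]` -/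
noncomputable def cov (s t : Fin 3 → ℝ) : ℝ :=
  (s 0 * t 0 + (s 1 + s 2) * (t 1 + t 2)) / 2 + (s 0 * (t 1 + t 2) + (s 1 + s 2) * t 0) / 4

/-- the distribution function of the standard normal law -/
noncomputable def Phi (y : ℝ) : ℝ := (gaussianReal 0 1).real (Set.Iic y)

section proof

open Pool.Agent.H468.WM (opf cnt Wt)
open Pool.Agent.H468.WN
open Pool.Agent.H468.WJ (kp indep_pat clt_pat exc exc_not)
open Pool.Agent.H743.JL (Qc2)

lemma num_congr {P Q : ℤ → Prop} (h : ∀ m, P m ↔ Q m) (X : ℕ) : num P X = num Q X := by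
  have : P = Q := funext fun m => propext (h m)
  rw [this]

lemma all_sys (d : ℤ) (hd : Squarefree d) (h : ¬ Pool.Agent.H743.X17.Exc d) :
    All d ↔ Pool.Agent.H743.X17.Sys d := Pool.Agent.H743.X17.ECX.all_iff hd h

lemma num_eq (P : ℤ → Prop) (X : ℕ) : num P X = Pool.Agent.H743.X17.num P X := rfl

lemma c_eq : c = Pool.Agent.Y703.CQ.c2 := rfl

lemma cls_eq (q : ℕ) (m : ℤ) : cls q m = cnt q (opf m) := rfl

lemma tw_eq (t m : ℤ) : tw t m = Pool.Agent.H743.JL.tw t m := rfl

lemma tw_one (m : ℤ) : tw 1 m = m := Pool.Agent.H955.JL.TT.t_TT.2.2.2.1 m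

lemma qc_iff (T : Finset ℤ) (inf : Prop) (S : Finset ℕ) (d₀ m : ℤ) :
    Qc2 T ∅ inf S d₀ m ↔ Cls T inf S d₀ m :=
  ⟨fun h => ⟨h.1.1, h.2⟩, fun h => ⟨⟨h.1, fun t ht => absurd ht (Finset.notMem_empty t)⟩, h.2⟩⟩

lemma qc_eq (T : Finset ℤ) (inf : Prop) (S : Finset ℕ) (d₀ : ℤ) :
    Qc2 T ∅ inf S d₀ = Cls T inf S d₀ := funext fun m => propext (qc_iff T inf S d₀ m)

open Classical in
lemma mem_plus {T : Finset ℤ} {d₀ t : ℤ} : t ∈ plus T d₀ ↔ t ∈ T ∧ Root (tw t d₀) := by
  unfold plus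
  exact Finset.mem_filter

lemma plus_eq (T : Finset ℤ) (d₀ : ℤ) {inst : DecidablePred fun t =>
    Pool.Agent.H743.X17.Rt (Pool.Agent.H743.JL.tw t d₀)} :
    @Finset.filter ℤ (fun t => Pool.Agent.H743.X17.Rt (Pool.Agent.H743.JL.tw t d₀)) inst T =
      plus T d₀ := by
  ext t
  rw [Finset.mem_filter, mem_plus]
  exact Iff.rfl

lemma kp_eq (Tp A : Finset ℤ) : kp Tp A ∅ ∅ = c ^ A.card * (1 - c) ^ (Tp \ A).card := by
  unfold Pool.Agent.H468.WJ.kp
  rw [c_eq]
  simp

/-- the exceptions -/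
noncomputable def Ex : Finset ℤ := Pool.Agent.H743.X17.ES

lemma not_exc {d : ℤ} (h : d ∉ Ex) : ¬ Pool.Agent.H743.X17.Exc d :=
  fun h' => h (Pool.Agent.H743.X17.mem_ES.2 h')

lemma pat_iff {T : Finset ℤ} (hT : ∀ t ∈ T, Squarefree t) (A : Finset ℤ) {d : ℤ} (hd : Squarefree d)
    (h : d ∉ exc T Ex) : Pat T A d ↔ Pool.Agent.H468.WJ.Pat T A ∅ ∅ d := by
  have h1 := exc_not hT hd h
  have h2 : ∀ t ∈ T, (All (tw t d) ↔ Pool.Agent.H743.X17.Sys (Pool.Agent.H743.JL.tw t d)) :=
    fun t ht => all_sys _ (Pool.Agent.N855.GF.Tw.tw_sqf (hT t ht) hd) (not_exc (h1 t ht))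
  constructor
  · intro h3
    exact ⟨fun t ht => (h2 t ht).symm.trans (h3 t ht), fun t ht => absurd ht (Finset.notMem_empty t)⟩
  · intro h3 t ht
    exact (h2 t ht).trans (h3.1 t ht)

lemma wt_mem {q : ℕ} (V : Set (ℕ → ℕ)) : Wt q fun S => cnt q S ∈ V := by
  intro S S' h
  show cnt q S ∈ V ↔ cnt q S' ∈ V
  rw [h]

lemma indep {T A : Finset ℤ} {P : ℤ → Prop} {κ : ℝ} (hP : IsClass T A P κ) {q : ℕ} (hq : 0 < q)
    {ε : ℝ} (hε : 0 < ε) : ∃ X₀ : ℕ, ∀ X : ℕ, X₀ ≤ X → ∀ V : Set (ℕ → ℕ),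
      |(num (fun m => P m ∧ Pat T A m ∧ cls q m ∈ V) X : ℝ) -
        κ * num (fun m => P m ∧ cls q m ∈ V) X| ≤ ε * X := by
  rcases hP with ⟨rfl, rfl, rfl, rfl⟩ | ⟨inf, S, d₀, h1, h2, h3, h4, rfl, rfl⟩
  · obtain ⟨X₀, h⟩ := indep_all all_sys hq ε hε
    refine ⟨X₀, fun X hX V => ?_⟩
    have h1 := h X hX _ (wt_mem V)
    have e1 : num (fun m => True ∧ Pat {1} {1} m ∧ cls q m ∈ V) X =
        Pool.Agent.H743.X17.num (fun d => All d ∧ cnt q (opf d) ∈ V) X := by
      rw [← num_eq]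
      refine num_congr (fun m => ?_) X
      constructor
      · rintro ⟨-, a, b⟩
        have a1 := (a 1 (Finset.mem_singleton_self 1)).2 (Finset.mem_singleton_self 1)
        rw [tw_one] at a1
        exact ⟨a1, b⟩
      · rintro ⟨a, b⟩
        refine ⟨trivial, fun t ht => ?_, b⟩
        rw [Finset.mem_singleton.1 ht, tw_one]
        exact ⟨fun _ => Finset.mem_singleton_self 1, fun _ => a⟩
    have e2 : num (fun m => True ∧ cls q m ∈ V) X =
        Pool.Agent.H743.X17.num (fun d => cnt q (opf d) ∈ V) X := by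
      rw [← num_eq]
      exact num_congr (fun m => ⟨fun h => h.2, fun h => ⟨trivial, h⟩⟩) X
    rw [e1, e2, c_eq]
    exact h1
  · obtain ⟨X₀, h⟩ := indep_pat T ∅ inf S d₀ h1 (fun t ht => absurd ht (Finset.notMem_empty t)) h2 h3
      hq (A := A) (A' := ∅) (by rw [plus_eq]; exact h4) (Finset.Subset.refl ∅)
      (F := Pat T A) (exc T Ex) (fun d hd hE _ => pat_iff h1 A hd hE) ε hε
    refine ⟨X₀, fun X hX V => ?_⟩
    have h5 := h X hX _ (wt_mem V)
    rw [plus_eq, kp_eq, qc_eq] at h5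
    exact h5

lemma abs3 (s x : Fin 3 → ℝ) (a b K : ℝ) (h0 : |x 0 - a| ≤ K) (h1 : |x 1 - b| ≤ K)
    (h2 : |x 2 - b| ≤ K) :
    |∑ j, s j * x j - (s 0 * a + (s 1 + s 2) * b)| ≤ K * (|s 0| + |s 1| + |s 2|) := by
  have e : ∑ j, s j * x j - (s 0 * a + (s 1 + s 2) * b) =
      s 0 * (x 0 - a) + s 1 * (x 1 - b) + s 2 * (x 2 - b) := by
    rw [Fin.sum_univ_three]
    ring
  rw [e]
  refine (abs_add_le _ _).trans ((add_le_add (abs_add_le _ _) le_rfl).trans ?_)
  rw [abs_mul, abs_mul, abs_mul]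
  have k0 : |s 0| * |x 0 - a| ≤ |s 0| * K := mul_le_mul_of_nonneg_left h0 (abs_nonneg _)
  have k1 : |s 1| * |x 1 - b| ≤ |s 1| * K := mul_le_mul_of_nonneg_left h1 (abs_nonneg _)
  have k2 : |s 2| * |x 2 - b| ≤ |s 2| * K := mul_le_mul_of_nonneg_left h2 (abs_nonneg _)
  linarith

/-- the bound for the linear form -/
noncomputable def bd (A : Finset ℤ) (s : ℤ → Fin 3 → ℝ) : ℝ :=
  ∑ t ∈ A, (5 + (t.natAbs.primeFactors.card : ℝ)) * (|s t 0| + |s t 1| + |s t 2|)

lemma near {k : ℕ} {A : Finset ℤ} (hA : ∀ t ∈ A, Squarefree t) (s : Fin k → ℤ → Fin 3 → ℝ) {d : ℤ}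
    (hd : Squarefree d) (hAll : ∀ t ∈ A, All (tw t d)) (i : Fin k) :
    |∑ t ∈ A, ∑ j, s i t j * lg j (tw t d) -
      gw 68 (wc (fun i => tot A (s i) 0) (fun i => tot A (s i) 1 + tot A (s i) 2)) i (opf d)| ≤
      bd A (s i) := by
  rw [gw_eq]
  have e : ∑ t ∈ A, ∑ j, s i t j * lg j (tw t d) -
      (tot A (s i) 0 * (n3 (opf d) : ℝ) + (tot A (s i) 1 + tot A (s i) 2) * (n17 (opf d) : ℝ)) =
      ∑ t ∈ A, (∑ j, s i t j * lg j (tw t d) -
        (s i t 0 * (n3 (opf d) : ℝ) + (s i t 1 + s i t 2) * (n17 (opf d) : ℝ))) := by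
    unfold tot
    rw [Finset.sum_sub_distrib, Finset.sum_add_distrib, ← Finset.sum_mul, ← Finset.sum_mul,
      Finset.sum_add_distrib]
  rw [e]
  refine (Finset.abs_sum_le_sum_abs _ _).trans (Finset.sum_le_sum fun t ht => ?_)
  have hsq : Squarefree (tw t d) := Pool.Agent.N855.GF.Tw.tw_sqf (hA t ht) hd
  obtain ⟨h0, h1, h2⟩ := Lg_near hsq.ne_zero (hAll t ht)
  have c3 := Pool.Agent.H468.WJ.n3_tw (hA t ht) hd
  have cn := Pool.Agent.H468.WJ.n17_tw (hA t ht) hd
  rw [← tw_eq] at c3 cn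
  refine abs3 (s i t) (fun j => lg j (tw t d)) _ _ _ ?_ ?_ ?_
  · have h : |lg 0 (tw t d) - n3 (opf (tw t d))| ≤ 5 := h0
    rw [abs_le] at h c3 ⊢
    constructor <;> linarith [h.1, h.2, c3.1, c3.2]
  · have h : |lg 1 (tw t d) - n17 (opf (tw t d))| ≤ 4 := h1
    rw [abs_le] at h cn ⊢
    constructor <;> linarith [h.1, h.2, cn.1, cn.2]
  · have h : |lg 2 (tw t d) - n17 (opf (tw t d))| ≤ 4 := h2
    rw [abs_le] at h cn ⊢
    constructor <;> linarith [h.1, h.2, cn.1, cn.2]

lemma law {T A : Finset ℤ} {P : ℤ → Prop} {κ : ℝ} (hP : IsClass T A P κ) {k : ℕ}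
    (s : Fin k → ℤ → Fin 3 → ℝ) (y : Fin k → ℝ) (hpos : ∀ i, 0 < cov (tot A (s i)) (tot A (s i)))
    (ho : ∀ i j, i ≠ j → cov (tot A (s i)) (tot A (s j)) = 0) :
    Tendsto (fun X : ℕ => (num (fun m => P m ∧ Pat T A m ∧
      ∀ i, ∑ t ∈ A, ∑ j, s i t j * lg j (tw t m) ≤ mean (tot A (s i)) * Real.log (Real.log X) +
        y i * √(cov (tot A (s i)) (tot A (s i)) * Real.log (Real.log X))) X : ℝ) /
      (num P X : ℝ)) atTop (𝓝 (κ * ∏ i, Phi (y i))) := by
  obtain ⟨K, hK⟩ : ∃ K : ℝ, K = ∑ i, bd A (s i) + 1 := ⟨_, rfl⟩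
  have hb0 : ∀ i, 0 ≤ bd A (s i) := fun i => Finset.sum_nonneg fun t _ => by positivity
  have hK0 : 0 < K := by
    rw [hK]
    have : 0 ≤ ∑ i, bd A (s i) := Finset.sum_nonneg fun i _ => hb0 i
    linarith
  have hKi : ∀ i, bd A (s i) ≤ K := by
    intro i
    have := Finset.single_le_sum (f := fun i => bd A (s i)) (fun i _ => hb0 i) (Finset.mem_univ i)
    rw [hK]
    linarith
  obtain ⟨α, hα⟩ : ∃ α : Fin k → ℝ, α = fun i => tot A (s i) 0 := ⟨_, rfl⟩
  obtain ⟨β, hβ⟩ : ∃ β : Fin k → ℝ, β = fun i => tot A (s i) 1 + tot A (s i) 2 := ⟨_, rfl⟩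
  have hv : Pool.Agent.H468.WV.Vec (fw 68 (wc α β)) (fun i => (α i + β i) / 2)
      (fun i => Pool.Agent.H468.WN.VV α β i i) := by
    refine vec_c α β (fun i => ?_) fun i j h => ?_
    · rw [hα, hβ]
      exact hpos i
    · rw [hα, hβ]
      exact ho i j h
  have hg : ∀ (i : Fin k) (n : ℕ), fw 68 (wc α β) i n = gw 68 (wc α β) i n.primeFactors :=
    fun i n => rfl
  have hg' : ∀ (i : Fin k) (S S' : Finset ℕ), cnt 136 S = cnt 136 S' →
      gw 68 (wc α β) i S = gw 68 (wc α β) i S' := fun i S S' h =>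
    gw_cnt (by norm_num) _ i S S' (cnt_dvd (by norm_num) (by norm_num) h)
  have hnear : (∀ t ∈ A, Squarefree t) → ∀ (d : ℤ), Squarefree d → (∀ t ∈ A, All (tw t d)) → ∀ i,
      |∑ t ∈ A, ∑ j, s i t j * lg j (tw t d) - gw 68 (wc α β) i (opf d)| ≤ K := by
    intro hA d hd hAll i
    rw [hα, hβ]
    exact (near hA s hd hAll i).trans (hKi i)
  have hT : ∀ (X : ℕ) (i : Fin k), th (fun i => (α i + β i) / 2)
      (fun i => Pool.Agent.H468.WN.VV α β i i) y X i =
      mean (tot A (s i)) * Real.log (Real.log X) +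
        y i * √(cov (tot A (s i)) (tot A (s i)) * Real.log (Real.log X)) := by
    intro X i
    have e : √(cov (tot A (s i)) (tot A (s i)) * Real.log (Real.log X)) =
        √(cov (tot A (s i)) (tot A (s i))) * √(Real.log (Real.log X)) := Real.sqrt_mul (hpos i).le _
    rw [e, hα, hβ]
    unfold th mean
    rw [add_assoc (tot A (s i) 0)]
    rfl
  rcases hP with ⟨rfl, rfl, rfl, rfl⟩ | ⟨inf, S, d₀, g1, g2, g3, g4, rfl, rfl⟩
  · have hA1 : ∀ t ∈ ({1} : Finset ℤ), Squarefree t := fun t ht => by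
      rw [Finset.mem_singleton.1 ht]
      exact squarefree_one
    have hAll : ∀ {d : ℤ}, All d → ∀ t ∈ ({1} : Finset ℤ), All (tw t d) := fun {d} h t ht => by
      rw [Finset.mem_singleton.1 ht, tw_one]
      exact h
    refine (clt_all hv hg hg' hK0 (F := fun Th d => All d ∧ ∀ i,
      ∑ t ∈ ({1} : Finset ℤ), ∑ j, s i t j * lg j (tw t d) ≤ Th i) ?_ ?_ y).congr fun X => ?_
    · intro Th d hd hE hS h
      have hA := (all_sys d hd hE).2 hS
      refine ⟨hA, fun i => ?_⟩
      have h3 := (abs_le.1 (hnear hA1 d hd (hAll hA) i)).2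
      have h4 := h i
      linarith
    · rintro Th d hd hE ⟨hA, h⟩
      refine ⟨(all_sys d hd hE).1 hA, fun i => ?_⟩
      have h3 := (abs_le.1 (hnear hA1 d hd (hAll hA) i)).1
      have h4 := h i
      show _ ≤ Th i + K
      linarith
    · have e : num (fun m => True ∧ Pat {1} {1} m ∧ ∀ i,
          ∑ t ∈ ({1} : Finset ℤ), ∑ j, s i t j * lg j (tw t m) ≤
          mean (tot {1} (s i)) * Real.log (Real.log X) +
            y i * √(cov (tot {1} (s i)) (tot {1} (s i)) * Real.log (Real.log X))) X =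
          num (fun m => All m ∧ ∀ i, ∑ t ∈ ({1} : Finset ℤ), ∑ j, s i t j * lg j (tw t m) ≤
            th (fun i => (α i + β i) / 2) (fun i => Pool.Agent.H468.WN.VV α β i i) y X i) X := by
        refine num_congr (fun m => ?_) X
        simp only [hT]
        constructor
        · rintro ⟨-, a, b⟩
          have a1 := (a 1 (Finset.mem_singleton_self 1)).2 (Finset.mem_singleton_self 1)
          rw [tw_one] at a1
          exact ⟨a1, b⟩
        · rintro ⟨a, b⟩
          refine ⟨trivial, fun t ht => ?_, b⟩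
          exact ⟨fun _ => ht, fun _ => hAll a t ht⟩
      rw [e]
      rfl
  · have hAp : ∀ t ∈ A, t ∈ T := fun t ht => (mem_plus.1 (g4 ht)).1
    have hA1 : ∀ t ∈ A, Squarefree t := fun t ht => g1 t (hAp t ht)
    have hmain := clt_pat hv hg hg' hK0 T ∅ inf S d₀ g1
      (fun t ht => absurd ht (Finset.notMem_empty t)) g2 g3 (A := A) (A' := ∅)
      (by rw [plus_eq]; exact g4) (Finset.Subset.refl ∅) (exc T Ex)
      (F := fun Th d => Pat T A d ∧ ∀ i, ∑ t ∈ A, ∑ j, s i t j * lg j (tw t d) ≤ Th i) ?_ ?_ y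
    · rw [plus_eq, kp_eq, qc_eq] at hmain
      refine hmain.congr fun X => ?_
      have e : num (fun m => Cls T inf S d₀ m ∧ Pat T A m ∧ ∀ i,
          ∑ t ∈ A, ∑ j, s i t j * lg j (tw t m) ≤
          mean (tot A (s i)) * Real.log (Real.log X) +
            y i * √(cov (tot A (s i)) (tot A (s i)) * Real.log (Real.log X))) X =
          num (fun m => Cls T inf S d₀ m ∧ Pat T A m ∧ ∀ i,
            ∑ t ∈ A, ∑ j, s i t j * lg j (tw t m) ≤
            th (fun i => (α i + β i) / 2) (fun i => Pool.Agent.H468.WN.VV α β i i) y X i) X := by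
        refine num_congr (fun m => ?_) X
        simp only [hT]
      rw [e]
      rfl
    · intro Th d hd hE _ hp h
      have hpat := (pat_iff g1 A hd hE).2 hp
      refine ⟨hpat, fun i => ?_⟩
      have h3 := (abs_le.1 (hnear hA1 d hd (fun t ht => (hpat t (hAp t ht)).2 ht) i)).2
      have h4 := h i
      linarith
    · rintro Th d hd hE _ ⟨hpat, h⟩
      refine ⟨(pat_iff g1 A hd hE).1 hpat, fun i => ?_⟩
      have h3 := (abs_le.1 (hnear hA1 d hd (fun t ht => (hpat t (hAp t ht)).2 ht) i)).1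
      have h4 := h i
      show _ ≤ Th i + K
      linarith

/-- the classes have positive lower density -/
lemma low {T A : Finset ℤ} {P : ℤ → Prop} {κ : ℝ} (hP : IsClass T A P κ) :
    ∃ (δ : ℝ) (X₀ : ℕ), 0 < δ ∧ ∀ X : ℕ, X₀ ≤ X → δ * X ≤ (num P X : ℝ) := by
  rcases hP with ⟨rfl, rfl, rfl, rfl⟩ | ⟨inf, S, d₀, g1, g2, g3, g4, rfl, rfl⟩
  · obtain ⟨δ, X₀, h1, h2⟩ := low_loc False ∅ (fun p hp => absurd hp (Finset.notMem_empty p))
      squarefree_one (Or.inl ⟨one_pos, jacobiSym.one_left 17⟩)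
    refine ⟨δ, X₀, h1, fun X hX => (h2 X hX).trans ?_⟩
    have h3 := Pool.Agent.H743.X17.num_mono (P := fun d => Pool.Agent.H743.X17.Rt d ∧
      Pool.Agent.N855.GF.Lc17.Loc False ∅ 1 d) (Q := fun _ => True) (fun d _ _ => trivial) X
    have h4 : num (fun _ => True) X = Pool.Agent.H743.X17.num (fun _ => True) X := rfl
    rw [h4]
    exact_mod_cast h3
  · obtain ⟨m, -, -, -, h, -⟩ := Pool.Agent.H468.WJ.mod2 T ∅ inf S d₀ g1
      (fun t ht => absurd ht (Finset.notMem_empty t)) g2 g3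
    obtain ⟨δ, X₀, h1, h2⟩ := h
    rw [qc_eq] at h2
    exact ⟨δ, X₀, h1, h2⟩

end proof

/-- **Main theorem.** -/
theorem result :
    -- the equations are minimal
    (∀ (j : Fin 4) (m : ℤ), Squarefree m → IsMinimal (W j m)) ∧
    (∀ (T A : Finset ℤ) (P : ℤ → Prop) (κ : ℝ), IsClass T A P κ →
    (∃ (δ : ℝ) (X₀ : ℕ), 0 < δ ∧ ∀ X : ℕ, X₀ ≤ X → δ * X ≤ (num P X : ℝ)) ∧
    -- (1) the joint law; independence of the numbers of the prime factors in the residue classes
    (∀ q : ℕ, 0 < q → ∀ ε : ℝ, 0 < ε → ∃ X₀ : ℕ, ∀ X : ℕ, X₀ ≤ X → ∀ V : Set (ℕ → ℕ),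
      |(num (fun m => P m ∧ Pat T A m ∧ cls q m ∈ V) X : ℝ) -
        κ * num (fun m => P m ∧ cls q m ∈ V) X| ≤ ε * X) ∧
    -- (2) the joint law of the orders of the Tate-Shafarevich groups
    (∀ (k : ℕ) (s : Fin k → ℤ → Fin 3 → ℝ) (y : Fin k → ℝ),
      (∀ i, 0 < cov (tot A (s i)) (tot A (s i))) →
      (∀ i j, i ≠ j → cov (tot A (s i)) (tot A (s j)) = 0) →
      Tendsto (fun X : ℕ => (num (fun m => P m ∧ Pat T A m ∧
        ∀ i, ∑ t ∈ A, ∑ j, s i t j * lg j (tw t m) ≤ mean (tot A (s i)) * Real.log (Real.log X) +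
          y i * √(cov (tot A (s i)) (tot A (s i)) * Real.log (Real.log X))) X : ℝ) /
        (num P X : ℝ)) atTop (𝓝 (κ * ∏ i, Phi (y i))))) ∧
    0.4194 < c ∧ c < 0.4195 := by
  refine ⟨fun j m hm => Pool.Agent.H743.X17.ECX.minj hm, fun T A P κ hP => ?_,
    Pool.Agent.H743.X17.c2_bounds⟩
  exact ⟨low hP, fun q hq ε hε => indep hP hq hε, fun k s y h1 h2 => law hP s y h1 h2⟩

end Pool.Agent.Results.MP_4a9ea6_nt.ShaOrdersX17
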