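import Pool.Agent.H743.JL.TP
import Pool.Agent.H743.X17.ECX
import Pool.Graph.R_pool_sql_team_seeded_63374d34.N916.GB.Num

/-!
# The joint law of the 2-part of the strong Birch and Swinnerton-Dyer conjecture for simultaneous
# quadratic twists: conductor 17, `X_0(15)`, `X_0(21)`, `X_0(24)`

For a squarefree integer `m` let `W j m`, `j = 0, …, 6`, be the minimal equations of the quadratic twists by
`m` of seven elliptic curves without complex multiplication, of four different isogeny classes: `W 0 m` the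
twist of `X_0(17)`, `W 1 m`, `W 2 m`, `W 3 m` the three other curves of its isogeny class (`W 3 m` is
`y² = x (x + m) (x - 16 m)`), `W 4 m`, `W 5 m`, `W 6 m` the twists of `X_0(15)`, `X_0(21)`, `X_0(24)`.  `Fam j m`: for
`j ≤ 3` ALL squarefree `m` (with the exceptions `1` and, for `j ≤ 2`, `-1, 17, -17`), for `j > 3` explicit
families of negative `m`, for `j = 5` of density `45/128` in the negative `m`.

(1) For every `m` in `Fam j`, with no hypothesis on the rank or on `Ш`: the 2-part of the conjecture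
(`TwoPart j m`: `L(1) ≠ 0`, finitely many rational points, `Ш[2^∞]` killed by `2` and of the explicit order
`2 ^ (ex j m - 2)`, the order of `Ш` predicted by the formula is this number times an odd square; the formula
holds up to an odd factor if `Ш` is finite) holds if and only if the criterion `Crit j m` holds; for `j ≥ 3`
this is so if and only if `E(ℚ)` is finite and `Ш[2^∞] = 0` (a 2-converse).  The criterion is: for `j ≤ 3` a
symmetric matrix over `𝔽₂` made of the Rédei matrix of `ℚ(√m)`, of the signs of the prime discriminants and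
of the symbols `(17/p)` is nonsingular; for `j > 3` there is no ideal class of order four in `ℚ(√m)`.  In all
cases `4 #tors² L(1) / (Ω Tam) = 2 ^ ex j m y²` with a natural number `y`, odd if and only if `Crit j m`.

(2) **The joint law.**  Let `All17 m` be the event that the 2-part of the conjecture holds for all the four
curves `W 0 m, …, W 3 m` (and `Ш(W j m)[2^∞]` has the order `(log |m|) ^ ((log 2)/2 + O(δ))` for `j ≤ 2`), and `All4 m`
the event that `Crit 4 m` and that the 2-part holds for those curves `W 4 m, W 5 m, W 6 m` for which `m` is in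
the family.  For all finite sets `T`, `T'` of squarefree integers and in every class of the `m` given by
conditions at finitely many places, the events `All17 (t m)`, `t ∈ T`, root number `1`, and `All4 (t m)`,
`t ∈ T'`, `t m < 0`, are independent, with the probabilities `c = (1 - 1/2) (1 - 1/8) (1 - 1/32) ⋯ = 0.4194...`
and `η = (1 - 1/2) (1 - 1/4) (1 - 1/8) ⋯ = 0.2887...`: every pattern has exactly the product proportion.
In particular (3) `All17 m` has the natural density `c / 2 = 0.2097...` in ALL the squarefree integers.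

Proof.  (1): helper743's `X17` (conductor 17), `H464/XB` (`X_0(15)`), `H114/X21` (`X_0(21)`), `H345/X24` (`X_0(24)`).
(2): `Pool/Agent/H743/JL`: the matrices of the criteria for the integers `t m` are random alternating and
split forms with the same random part and different (linearly disjoint) fixed parts; the averages of the
indicators of nondegeneracy over the prime factors of `m` are computed by means of rank one changes and
of the invariant relation spaces.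
-/

set_option autoImplicit false

open Filter Topology MeasureTheory NumberField

namespace Pool.Agent.Results.MP_4a9ea6_nt.SimultaneousTwoPart

open Pool.Agent.TH841.SH.D (Sha)

/-! ### the curves -/

/-- the minimal equations, `m` squarefree; `j ≤ 3`: the isogeny class of the twist by `m` of `X_0(17)`;
`j = 4, 5, 6`: the twists by `m` of `X_0(15)`, `X_0(21)`, `X_0(24)` -/
def W (j : Fin 7) (m : ℤ) : WeierstrassCurve ℤ := match j with
  | 0 => if m % 4 = 1 then ⟨1, (33 * m - 1) / 4, 0, 22 * m ^ 2, 5 * m ^ 3⟩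
    else ⟨0, 33 * m, 0, 352 * m ^ 2, 320 * m ^ 3⟩
  | 1 => if m % 4 = 1 then ⟨1, (9 * m - 1) / 4, 0, m ^ 2, 0⟩ else ⟨0, 9 * m, 0, 16 * m ^ 2, 0⟩
  | 2 => if m % 4 = 1 then ⟨1, (-63 * m - 1) / 4, 0, -8 * m ^ 2, -m ^ 3⟩
    else ⟨0, -63 * m, 0, -128 * m ^ 2, -64 * m ^ 3⟩
  | 3 => if m % 4 = 1 then ⟨1, -((15 * m + 1) / 4), 0, -m ^ 2, 0⟩
    else ⟨0, -15 * m, 0, -16 * m ^ 2, 0⟩
  | 4 => ⟨1, (5 * m - 1) / 4, 1, -((19 * m ^ 2 + 1) / 2), -((39 * m ^ 3 + 1) / 4)⟩
  | 5 => if m % 4 = 1 then ⟨1, (25 * m - 1) / 4, 0, 9 * m ^ 2, 0⟩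
    else ⟨0, 25 * m, 0, 144 * m ^ 2, 0⟩
  | 6 => ⟨0, 2 * m, 0, -(3 * m ^ 2), 0⟩

/-- the curve over `ℚ` -/
abbrev E (j : Fin 7) (m : ℤ) : WeierstrassCurve ℚ := (W j m).map (Int.castRingHom ℚ)

/-- the families (`m` squarefree): `j ≤ 3`: all `m` with at most four exceptions -/
def Fam (j : Fin 7) (m : ℤ) : Prop := match j with
  | 3 => m ≠ 1
  | 4 => m < 0 ∧ (m % 60 = 13 ∨ m % 60 = 37)
  | 5 => m < 0 ∧ m % 3 ≠ 1 ∧ (m % 7 = 0 ∨ m % 7 = 1 ∨ m % 7 = 2 ∨ m % 7 = 4)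
  | 6 => m < 0 ∧ m % 24 = 13
  | _ => m ≠ 1 ∧ m ≠ -1 ∧ m ≠ 17 ∧ m ≠ -17

/-- the equation is minimal: `Δ ≠ 0` and `|Δ|` is minimal among the integral equations -/
def IsMinimal (V : WeierstrassCurve ℤ) : Prop :=
  V.Δ ≠ 0 ∧ ∀ (V' : WeierstrassCurve ℤ) (C : WeierstrassCurve.VariableChange ℚ),
    C • (V.map (Int.castRingHom ℚ)) = V'.map (Int.castRingHom ℚ) → |V.Δ| ≤ |V'.Δ|

/-- `a_p = p - #{affine points modulo p}` -/
noncomputable def ap (V : WeierstrassCurve ℤ) (p : ℕ) : ℤ :=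
  p - (Nat.card {P : ZMod p × ZMod p //
    (V.map (Int.castRingHom (ZMod p))).toAffine.Equation P.1 P.2} : ℕ)

/-- `Λ` is entire and it is the Hasse-Weil L-function of the minimal equation `V` -/
def IsL (V : WeierstrassCurve ℤ) (Λ : ℂ → ℂ) : Prop :=
  Differentiable ℂ Λ ∧ ∀ s : ℂ, 3 / 2 < s.re →
    HasProd (fun p : Nat.Primes => (1 - (ap V p : ℂ) * ((p : ℕ) : ℂ) ^ (-s) +
      (if ((p : ℕ) : ℤ) ∣ V.Δ then 0 else ((p : ℕ) : ℂ) ^ (1 - 2 * s)))⁻¹) (Λ s)

/-- `4 x³ + b₂ x² + 2 b₄ x + b₆ = (2 y + a₁ x + a₃)²` -/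
noncomputable def cubic (V : WeierstrassCurve ℤ) (x : ℝ) : ℝ :=
  4 * x ^ 3 + V.b₂ * x ^ 2 + 2 * V.b₄ * x + V.b₆

/-- `Ω = ∫_{E(ℝ)} |ω|`, `ω = dx / (2 y + a₁ x + a₃)`; two real points lie over each `x` with
`cubic x > 0` -/
noncomputable def Omega (V : WeierstrassCurve ℤ) : ℝ :=
  ∫ x in {x : ℝ | 0 < cubic V x}, 2 / Real.sqrt (cubic V x)

/-- the reduction of the point `(x, y)` modulo `p` is the singular point -/
def Sing (V : WeierstrassCurve ℤ) (p : ℕ) [Fact p.Prime] (x y : ℚ_[p]) : Prop :=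
  ‖x‖ ≤ 1 ∧ ‖y‖ ≤ 1 ∧ ‖V.a₁ * y - (3 * x ^ 2 + 2 * V.a₂ * x + V.a₄)‖ < 1 ∧
    ‖2 * y + V.a₁ * x + V.a₃‖ < 1

open scoped Classical in
/-- the Tamagawa number `[E(ℚ_p) : E_0(ℚ_p)]`, `E_0(ℚ_p)` the group generated by the points with
nonsingular reduction -/
noncomputable def tam (V : WeierstrassCurve ℤ) (p : ℕ) [Fact p.Prime] : ℕ :=
  (AddSubgroup.closure {P : (V.map (Int.castRingHom ℚ_[p])).toAffine.Point |
    ∀ (x y : ℚ_[p]) (h), P = .some x y h → ¬ Sing V p x y}).index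

/-- the product of the Tamagawa numbers over the primes which divide the discriminant -/
noncomputable def Tam (V : WeierstrassCurve ℤ) : ℕ :=
  ∏ p ∈ V.Δ.natAbs.primeFactors, if h : p.Prime then (haveI := Fact.mk h; tam V p) else 1

/-- the order of the torsion subgroup -/
noncomputable def tors (j : Fin 7) (m : ℤ) : ℕ :=
  Nat.card (AddCommGroup.torsion (E j m).toAffine.Point)

/-- `L^an` for rank `0`: the value `l` at `s = 1` divided by `Ω` -/
noncomputable def Lan (j : Fin 7) (m : ℤ) (l : ℂ) : ℂ := l / (Omega (W j m) : ℝ)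

/-- `L^alg = #Ш Tam / #tors²` -/
noncomputable def Lalg (j : Fin 7) (m : ℤ) : ℚ :=
  Nat.card (Sha (E j m)) * Tam (W j m) / (tors j m : ℚ) ^ 2

/-- the order of `Ш` predicted by the formula for rank `0`: `#tors² L^an / Tam` -/
noncomputable def anSha (j : Fin 7) (m : ℤ) (l : ℂ) : ℂ :=
  Lan j m l * (tors j m : ℂ) ^ 2 / (Tam (W j m) : ℂ)

/-- the order of `Ш[2^∞]` -/
noncomputable def sha2 (j : Fin 7) (m : ℤ) : ℕ :=
  Nat.card {x : Sha (E j m) // ∃ n : ℕ, 2 ^ n • x = 0}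

/-- the root number is `1` -/
def Root (m : ℤ) : Prop := (0 < m ∧ jacobiSym m 17 = 1) ∨ (m < 0 ∧ jacobiSym m 17 ≠ 1)

/-! ### the criteria and the exponents -/

/-- the absolute value of the discriminant of `ℚ(√m)`, `m` squarefree -/
def disc (m : ℤ) : ℕ := if m % 4 = 1 then m.natAbs else 4 * m.natAbs

/-- the primes ramified in `ℚ(√m)` -/
def R (m : ℤ) : Finset ℕ := (disc m).primeFactors

/-- the prime discriminant `q*` of `ℚ(√m)`, `q ∈ R m` -/
def star (m : ℤ) (q : ℕ) : ℤ :=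
  if q = 2 then (if m % 4 = 3 then -4 else if m % 8 = 2 then 8 else -8)
  else if q % 4 = 1 then q else -q

/-- the Kronecker symbol `(q* / p)`, `p ≠ q`, written additively -/
def sym (m : ℤ) (q p : ℕ) : ZMod 2 :=
  if p = 2 then (if star m q % 8 = 1 ∨ star m q % 8 = 7 then 0 else 1)
  else (if jacobiSym (star m q) p = 1 then 0 else 1)

/-- the Rédei matrix: `(q* / p)` outside of the diagonal, and the sums of the rows are zero -/
def L (m : ℤ) (p q : ℕ) : ZMod 2 := if p = q then ∑ r ∈ (R m).erase p, sym m r p else sym m q p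

/-- the sign of `q*`, written additively -/
def sg (m : ℤ) (q : ℕ) : ZMod 2 := if star m q < 0 then 1 else 0

/-- the Kronecker symbol `(17 / p)`, written additively -/
def nu (p : ℕ) : ZMod 2 := if p = 2 then 0 else if jacobiSym 17 p = 1 then 0 else 1

/-- **The criterion**: the homogeneous system over `𝔽₂` with the symmetric matrix
`[[diag (17/p), L], [Lᵀ, diag (sign of q*)]]`, without the row and the column of the first block which
belong to `17`, has only the trivial solution. -/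
def Good (m : ℤ) : Prop := ∀ x y : ℕ → ZMod 2, x 17 = 0 →
  (∀ p ∈ (R m).erase 17, nu p * x p + ∑ q ∈ R m, L m p q * y q = 0) →
  (∀ q ∈ R m, ∑ p ∈ R m, L m p q * x p + sg m q * y q = 0) →
  ∀ p ∈ R m, x p = 0 ∧ y p = 0

/-- the number of the negative prime discriminants -/
def neg (m : ℤ) : ℕ := ((R m).filter fun q => sg m q = 1).card

/-- the number of the ramified primes `p ≠ 17` with `(17/p) = -1` -/
def non (m : ℤ) : ℕ := (((R m).erase 17).filter fun p => nu p = 1).card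

/-- `((m/17) / 17)`, written additively -/
def r17 (m : ℤ) : ℕ := if jacobiSym (m / 17) 17 = 1 then 0 else 1

/-- the exponents: `#Ш[2^∞] = 2 ^ (ex j m - 2)` if `Crit j m` -/
def ex (j : Fin 7) (m : ℤ) : ℕ := match j with
  | 0 => if 0 < m then neg m else neg m + 1
  | 1 => if 0 < m then non m else if (17 : ℤ) ∣ m then non m + r17 m else non m + 1
  | 2 => if 0 < m then non m + 2 else if (17 : ℤ) ∣ m then non m + r17 m else non m + 1
  | _ => 2

/-- there is no ideal class of order four in `ℚ(√m)` -/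
def NoFour (m : ℤ) : Prop := ∀ (K : Type) [Field K] [NumberField K], Module.finrank ℚ K = 2 →
  (∃ s : K, s ^ 2 = (m : K)) → ∀ c : ClassGroup (𝓞 K), c ^ 4 = 1 → c ^ 2 = 1

/-- the criteria -/
def Crit (j : Fin 7) (m : ℤ) : Prop := if j ≤ 3 then Good m else NoFour m

/-! ### the 2-part of the conjecture -/

/-- `E(ℚ)` is finite and the `2`-primary part of `Ш` is zero -/
def FinSha (j : Fin 7) (m : ℤ) : Prop :=
  Finite (E j m).toAffine.Point ∧ ∀ (n : ℕ) (x : Sha (E j m)), 2 ^ n • x = 0 → x = 0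

/-- the `2`-part of the conjecture with `L(1) ≠ 0`: `E(ℚ)` is finite, `Ш[2^∞]` is killed by `2` and has the
order `2 ^ (ex j m - 2)`, `L(1) ≠ 0`, the predicted order of `Ш` is `#Ш[2^∞]` times the square of an odd
number, and `n L^an = k L^alg` for odd numbers `k`, `n` if `Ш` is finite -/
def TwoPart (j : Fin 7) (m : ℤ) : Prop :=
  Finite (E j m).toAffine.Point ∧ (∀ (n : ℕ) (x : Sha (E j m)), 2 ^ n • x = 0 → 2 • x = 0) ∧
    2 ≤ ex j m ∧ sha2 j m = 2 ^ (ex j m - 2) ∧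
    ∃ Λ : ℂ → ℂ, IsL (W j m) Λ ∧ Λ 1 ≠ 0 ∧
      (∃ y : ℕ, Odd y ∧ anSha j m (Λ 1) = sha2 j m * (y : ℂ) ^ 2) ∧
      (Finite (Sha (E j m)) → ∃ k n : ℕ, Odd k ∧ Odd n ∧
        n * Lan j m (Λ 1) = k * ((Lalg j m : ℚ) : ℂ))

/-- the 2-part of the conjecture holds for the four curves of the isogeny class of the twist of `X_0(17)`,
and `log₂ #Ш[2^∞]` is `(1/2 + O(δ)) log log |m|` for `W 0 m`, `W 1 m`, `W 2 m` -/
def All17 (δ : ℝ) (m : ℤ) : Prop := ∀ j : Fin 7, j ≤ 3 → TwoPart j m ∧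
  (j ≠ 3 → |Real.logb 2 (sha2 j m) - 1 / 2 * Real.log (Real.log |(m : ℝ)|)| ≤
    δ * Real.log (Real.log |(m : ℝ)|))

/-- there is no ideal class of order four in `ℚ(√m)`, and the 2-part of the conjecture holds for those of
the twists by `m` of `X_0(15)`, `X_0(21)`, `X_0(24)` for which `m` belongs to the family -/
def All4 (m : ℤ) : Prop := NoFour m ∧ ∀ j : Fin 7, 4 ≤ j → Fam j m → TwoPart j m

/-! ### the densities -/

/-- the squarefree part of the product of the squarefree integers `t` and `m` -/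
def tw (t m : ℤ) : ℤ := t * m / (Int.gcd t m : ℤ) ^ 2

open Classical in
/-- the number of the squarefree integers `m`, `|m| ≤ X`, with the property `P` -/
noncomputable def num (P : ℤ → Prop) (X : ℕ) : ℕ :=
  ((Finset.Icc (-(X : ℤ)) X).filter fun m => Squarefree m ∧ P m).card

/-- `m` and `d₀` have the same class in `ℚ_p^×` modulo squares for `p ∈ S`, and the same sign if `inf` -/
def SameClass (inf : Prop) (S : Finset ℕ) (d₀ m : ℤ) : Prop :=
  (inf → 0 < m * d₀) ∧ ∀ (p : ℕ) [Fact p.Prime], p ∈ S → IsSquare ((m * d₀ : ℤ) : ℚ_[p])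

/-- the class of `d₀`: the same class at the given places, the same root numbers of the twists by
`t m`, `t ∈ T`, and the same signs of `t m`, `t ∈ T'` -/
def Cls (T T' : Finset ℤ) (inf : Prop) (S : Finset ℕ) (d₀ m : ℤ) : Prop :=
  ((∀ t ∈ T, (Root (tw t m) ↔ Root (tw t d₀))) ∧ ∀ t ∈ T', (tw t m < 0 ↔ tw t d₀ < 0)) ∧
    SameClass inf S d₀ m

/-- the constant `(1 - 1/2) (1 - 1/8) (1 - 1/32) ⋯ = 0.4194...` -/
noncomputable def c : ℝ := ∏' i : ℕ, (1 - (1 / 2 : ℝ) ^ (2 * i + 1))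

/-- the constant `(1 - 1/2) (1 - 1/4) (1 - 1/8) ⋯ = 0.2887...` -/
noncomputable def η : ℝ := ∏' i : ℕ, (1 - (1 / 2 : ℝ) ^ (i + 1))

section proof

open Pool.Agent.H743.JL (Null null_or null_fin null_mono tfz)

/-- the index -/
def ix (i : Fin 4) : Fin 7 := ⟨i.1, by omega⟩

/-- the index -/
def jx (i : Fin 3) : Fin 7 := ⟨i.1 + 4, by omega⟩

lemma le3 {j : Fin 7} (h : j ≤ 3) : ∃ i : Fin 4, j = ix i := by
  have h' : j.1 ≤ 3 := h
  exact ⟨⟨j.1, by omega⟩, Fin.ext rfl⟩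

lemma ge4 {j : Fin 7} (h : 4 ≤ j) : ∃ i : Fin 3, j = jx i := by
  have h' : 4 ≤ j.1 := h
  exact ⟨⟨j.1 - 4, by omega⟩, Fin.ext (by show j.1 = j.1 - 4 + 4; omega)⟩

lemma ix_le (i : Fin 4) : ix i ≤ 3 := by
  show i.1 ≤ 3
  omega

lemma jx_ge (i : Fin 3) : 4 ≤ jx i := by
  show 4 ≤ i.1 + 4
  omega

lemma W_jx (i : Fin 3) (m : ℤ) : W (jx i) m = Pool.Agent.H743.JL.TP.W3 i m := by
  have h : ∀ i : Fin 3, i = 0 ∨ i = 1 ∨ i = 2 := by decide
  rcases h i with rfl | rfl | rfl <;> rfl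

lemma ex_jx (i : Fin 3) (m : ℤ) : ex (jx i) m = 2 := by
  have h : ∀ i : Fin 3, i = 0 ∨ i = 1 ∨ i = 2 := by decide
  rcases h i with rfl | rfl | rfl <;> rfl

lemma two_ix (i : Fin 4) (m : ℤ) : TwoPart (ix i) m ↔ Pool.Agent.H743.X17.ECX.TwoPart i m := by
  have h : ∀ i : Fin 4, i = 0 ∨ i = 1 ∨ i = 2 ∨ i = 3 := by decide
  rcases h i with rfl | rfl | rfl | rfl <;> exact Iff.rfl

lemma sha2_ix (i : Fin 4) (m : ℤ) : sha2 (ix i) m = Pool.Agent.H743.X17.ECX.sha2 i m := by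
  have h : ∀ i : Fin 4, i = 0 ∨ i = 1 ∨ i = 2 ∨ i = 3 := by decide
  rcases h i with rfl | rfl | rfl | rfl <;> rfl

lemma fam_low {i : Fin 4} (hi : i ≠ 3) {m : ℤ} (h : Fam (ix i) m) :
    ¬ Pool.Agent.H743.X17.ECX.Exc m := by
  have h4 : ∀ i : Fin 4, i = 0 ∨ i = 1 ∨ i = 2 ∨ i = 3 := by decide
  have key : m ≠ 1 ∧ m ≠ -1 ∧ m ≠ 17 ∧ m ≠ -17 := by
    rcases h4 i with rfl | rfl | rfl | rfl
    · exact h
    · exact h
    · exact h
    · exact absurd rfl hi
  rintro (h1 | h1 | h1 | h1)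
  · exact key.1 h1
  · exact key.2.1 h1
  · exact key.2.2.1 h1
  · exact key.2.2.2 h1

/-- (1) for the conductor `17` -/
lemma part17 (i : Fin 4) {m : ℤ} (hm : Squarefree m) (hF : Fam (ix i) m) :
    IsMinimal (W (ix i) m) ∧ tors (ix i) m = (if ix i < 3 then 2 else 4) ∧
      (∃ (Λ : ℂ → ℂ) (y : ℕ), IsL (W (ix i) m) Λ ∧
        4 * anSha (ix i) m (Λ 1) = 2 ^ ex (ix i) m * (y : ℂ) ^ 2 ∧ (Odd y ↔ Good m)) ∧
      (TwoPart (ix i) m ↔ Good m) ∧ (3 ≤ ix i → (TwoPart (ix i) m ↔ FinSha (ix i) m)) := by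
  by_cases hi : i = 3
  · subst hi
    have h1 : m ≠ 1 := hF
    obtain ⟨k1, k2, Λ, y, k3, k4, k5⟩ := Pool.Agent.H743.X17.ECX.three hm h1
    refine ⟨Pool.Agent.H743.X17.ECX.minj (j := 3) hm, Pool.Agent.H743.X17.ECX.tors3 hm,
      ⟨Λ, y, k3, ?_, k5⟩, k2, fun _ => k2.trans k1.symm⟩
    have k4' : anSha (ix 3) m (Λ 1) = (y : ℂ) ^ 2 := k4
    rw [k4']
    show 4 * (y : ℂ) ^ 2 = 2 ^ 2 * (y : ℂ) ^ 2
    norm_num
  · have hE := fam_low hi hF
    obtain ⟨Λ, y, h1, -, h2⟩ := Pool.Agent.H743.X17.ECX.res.1 m hm hE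
    obtain ⟨k1, k2, -, k3, k4, k5⟩ := h2 i
    have h4 : ∀ i : Fin 4, i = 0 ∨ i = 1 ∨ i = 2 ∨ i = 3 := by decide
    have hlt : ix i < 3 := by
      show i.1 < 3
      have : i.1 ≠ 3 := fun h => hi (Fin.ext h)
      omega
    rw [if_pos hlt]
    rw [if_neg hi] at k2
    refine ⟨?_, ?_, ⟨Λ, y, ?_, ?_, h1⟩, (two_ix i m).trans k5, fun h => absurd h (not_le.2 hlt)⟩
    · rcases h4 i with rfl | rfl | rfl | rfl <;> exact k1
    · rcases h4 i with rfl | rfl | rfl | rfl <;> exact k2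
    · rcases h4 i with rfl | rfl | rfl | rfl <;> exact k3
    · rcases h4 i with rfl | rfl | rfl | rfl <;> exact k4

/-! #### `X_0(15)`, `X_0(21)`, `X_0(24)` -/

/-- from the invariants to the formula -/
lemma formula {j : Fin 7} {m : ℤ} {l : ℂ} {y : ℕ} (ht : tors j m ≠ 0) (hT : Tam (W j m) ≠ 0)
    (hy : Odd y) (h : anSha j m l = sha2 j m * (y : ℂ) ^ 2) (hf : Finite (Sha (E j m))) :
    ∃ k n : ℕ, Odd k ∧ Odd n ∧ n * Lan j m l = k * ((Lalg j m : ℚ) : ℂ) := by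
  obtain ⟨b, hb, hcard⟩ := Pool.Agent.H743.X17.ECX.card_split (Sha (E j m))
  refine ⟨y ^ 2, b, hy.pow, hb, ?_⟩
  have hc : Nat.card (Sha (E j m)) = b * sha2 j m := hcard
  have htC : (tors j m : ℂ) ≠ 0 := by exact_mod_cast ht
  have hTC : (Tam (W j m) : ℂ) ≠ 0 := by exact_mod_cast hT
  unfold anSha at h
  rw [div_eq_iff hTC] at h
  unfold Lalg
  rw [hc]
  push_cast
  field_simp
  linear_combination (b : ℂ) * h

lemma sha2_one {j : Fin 7} {m : ℤ} (h : FinSha j m) : sha2 j m = 1 := by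
  unfold sha2
  rw [Nat.card_eq_one_iff_unique]
  refine ⟨⟨?_⟩, ⟨⟨0, 0, smul_zero _⟩⟩⟩
  rintro ⟨x, n, hx⟩ ⟨x', n', hx'⟩
  apply Subtype.ext
  show x = x'
  rw [h.2 n x hx, h.2 n' x' hx']

lemma fin_of_two {j : Fin 7} {m : ℤ} (hj : ex j m = 2) (h : TwoPart j m) : FinSha j m := by
  obtain ⟨h1, -, -, h2, -⟩ := h
  rw [hj] at h2
  have h3 : sha2 j m = 1 := h2
  refine ⟨h1, fun n x hx => ?_⟩
  unfold sha2 at h3
  rw [Nat.card_eq_one_iff_unique] at h3
  obtain ⟨h4, -⟩ := h3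
  have := Subsingleton.elim (⟨x, n, hx⟩ : {x : Sha (E j m) // ∃ n : ℕ, 2 ^ n • x = 0})
    ⟨0, 0, smul_zero _⟩
  exact congrArg Subtype.val this

lemma fam_jx (i : Fin 3) (m : ℤ) : Fam (jx i) m ↔ Pool.Agent.H743.JL.Fam i m := by
  have h : ∀ i : Fin 3, i = 0 ∨ i = 1 ∨ i = 2 := by decide
  rcases h i with rfl | rfl | rfl <;> exact Iff.rfl

lemma fam_neg (i : Fin 3) {m : ℤ} (h : Fam (jx i) m) : m < 0 ∧ m ≠ -1 := by
  have h3 : ∀ i : Fin 3, i = 0 ∨ i = 1 ∨ i = 2 := by decide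
  rcases h3 i with rfl | rfl | rfl
  · obtain ⟨h1, h2⟩ := h
    exact ⟨h1, by rintro rfl; omega⟩
  · obtain ⟨h1, h2, h3⟩ := h
    exact ⟨h1, by rintro rfl; omega⟩
  · obtain ⟨h1, h2⟩ := h
    exact ⟨h1, by rintro rfl; omega⟩

lemma noFour_iff {m : ℤ} (hm : Squarefree m) (h0 : m < 0) (h1 : m ≠ -1) :
    NoFour m ↔ Pool.Agent.H743.JL.H4 m := Pool.Agent.H743.JL.nf m h0 h1 hm

/-- (1) for `j > 3` -/
lemma part4 (i : Fin 3) {m : ℤ} (hm : Squarefree m) (hF : Fam (jx i) m) :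
    IsMinimal (W (jx i) m) ∧ tors (jx i) m = 4 ∧
      (∃ (Λ : ℂ → ℂ) (y : ℕ), IsL (W (jx i) m) Λ ∧
        4 * anSha (jx i) m (Λ 1) = 2 ^ ex (jx i) m * (y : ℂ) ^ 2 ∧
        (Odd y ↔ Pool.Agent.H743.JL.H4 m)) ∧
      (TwoPart (jx i) m ↔ Pool.Agent.H743.JL.H4 m) ∧ (TwoPart (jx i) m ↔ FinSha (jx i) m) := by
  have hd := Pool.Agent.H743.JL.TP.data i hm ((fam_jx i m).1 hF)
  rw [← W_jx] at hd
  obtain ⟨k1, k2, k3, k4, k5, Λ, y, k6, k7, k8⟩ := hd
  have ht : tors (jx i) m = 4 := k2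
  have hT : Tam (W (jx i) m) = Pool.Agent.H743.JL.TP.tm i m := k3
  have hO : (0 : ℝ) < Omega (W (jx i) m) := k4
  have hfs : FinSha (jx i) m ↔ Pool.Agent.H743.JL.H4 m := k5
  have hv : Λ 1 = (((y : ℝ) ^ 2 * (Tam (W (jx i) m) : ℝ) / 16 * Omega (W (jx i) m) : ℝ) : ℂ) := k7
  have hT0 : Tam (W (jx i) m) ≠ 0 := by
    rw [hT]
    have h : ∀ i : Fin 3, i = 0 ∨ i = 1 ∨ i = 2 := by decide
    rcases h i with rfl | rfl | rfl
    · exact pow_ne_zero _ (by norm_num)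
    · show 4 ^ _ * (if (3 : ℤ) ∣ m then 1 else 2) * (if (7 : ℤ) ∣ m then 1 else 2) ≠ 0
      split_ifs <;> simp
    · exact pow_ne_zero _ (by norm_num)
  have hOC : ((Omega (W (jx i) m) : ℝ) : ℂ) ≠ 0 := by exact_mod_cast hO.ne'
  have hTC : (Tam (W (jx i) m) : ℂ) ≠ 0 := by exact_mod_cast hT0
  have han : anSha (jx i) m (Λ 1) = (y : ℂ) ^ 2 := by
    unfold anSha Lan
    rw [hv, ht]
    push_cast
    field_simp
    norm_num
  have hfwd : TwoPart (jx i) m → FinSha (jx i) m := fin_of_two (ex_jx i m)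
  have hbwd : FinSha (jx i) m → TwoPart (jx i) m := by
    intro hfin
    have hyo : Odd y := k8.2 (hfs.1 hfin)
    have hs := sha2_one hfin
    have ha : anSha (jx i) m (Λ 1) = sha2 (jx i) m * (y : ℂ) ^ 2 := by
      rw [hs, han]
      push_cast
      ring
    refine ⟨hfin.1, fun n x hx => by rw [hfin.2 n x hx, smul_zero], (ex_jx i m).ge, ?_, Λ, k6, ?_,
      ⟨y, hyo, ha⟩, formula (by rw [ht]; norm_num) hT0 hyo ha⟩
    · rw [hs, ex_jx]
      norm_num
    · intro h2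
      rw [h2] at han
      unfold anSha Lan at han
      rw [zero_div, zero_mul, zero_div] at han
      have h3 : (y : ℂ) = 0 := pow_eq_zero_iff (two_ne_zero) |>.1 han.symm
      have h4 : y = 0 := by exact_mod_cast h3
      rw [h4] at hyo
      exact absurd hyo (by decide)
  refine ⟨k1, ht, ⟨Λ, y, k6, ?_, k8⟩, ⟨fun h => hfs.1 (hfwd h), fun h => hbwd (hfs.2 h)⟩,
    ⟨hfwd, hbwd⟩⟩
  rw [han, ex_jx]
  norm_num

lemma crit_ix (i : Fin 4) (m : ℤ) : Crit (ix i) m ↔ Good m := by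
  unfold Crit
  rw [if_pos (ix_le i)]

lemma crit_jx (i : Fin 3) (m : ℤ) : Crit (jx i) m ↔ NoFour m := by
  unfold Crit
  rw [if_neg (not_le.2 (lt_of_lt_of_le (by decide) (jx_ge i)))]

/-! #### the events -/

lemma all17_iff {δ : ℝ} {m : ℤ} : All17 δ m ↔
    Pool.Agent.H743.X17.ECX.All m ∧ Pool.Agent.H743.X17.ECX.Size δ m := by
  constructor
  · intro h
    refine ⟨fun i => (two_ix i m).1 (h (ix i) (ix_le i)).1, fun i hi => ?_⟩
    rw [← sha2_ix]
    refine (h (ix i) (ix_le i)).2 fun h3 => hi (Fin.ext ?_)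
    have h4 : (ix i).1 = (3 : Fin 7).1 := congrArg Fin.val h3
    exact h4
  · rintro ⟨h1, h2⟩ j hj
    obtain ⟨i, rfl⟩ := le3 hj
    refine ⟨(two_ix i m).2 (h1 i), fun hi => ?_⟩
    rw [sha2_ix]
    exact h2 i fun h3 => hi (by rw [h3]; rfl)

/-- the exceptions -/
def Zs (δ : ℝ) (m : ℤ) : Prop := m ∈ ({1, -1, 17, -17} : Finset ℤ) ∨ ¬ ∀ j : Fin 3,
  |((Pool.Agent.H743.X17.eJ j m : ℝ) - 2) - 1 / 2 * Real.log (Real.log |(m : ℝ)|)| ≤
    δ * Real.log (Real.log |(m : ℝ)|)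

lemma null_Zs {δ : ℝ} (hδ : 0 < δ) : Null (Zs δ) :=
  null_or (null_fin _) (Pool.Agent.H743.X17.normalJ δ hδ)

lemma all17_sys {δ : ℝ} {m : ℤ} (hm : Squarefree m) (hZ : ¬ Zs δ m) :
    All17 δ m ↔ Pool.Agent.H743.X17.Sys m := by
  unfold Zs at hZ
  rw [not_or, not_not] at hZ
  have hE : ¬ Pool.Agent.H743.X17.ECX.Exc m := by
    intro h
    apply hZ.1
    simp only [Finset.mem_insert, Finset.mem_singleton]
    exact h
  rw [all17_iff]
  constructor
  · intro h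
    exact (Pool.Agent.H743.X17.ECX.all_iff hm hE).1 h.1
  · intro h
    have hA : Pool.Agent.H743.X17.ECX.All m := (Pool.Agent.H743.X17.ECX.all_iff hm hE).2 h
    exact ⟨hA, (Pool.Agent.H743.X17.ECX.size_iff hA).2 hZ.2⟩

lemma all4_iff {m : ℤ} (hm : Squarefree m) (h0 : m < 0) (h1 : m ≠ -1) :
    All4 m ↔ Pool.Agent.H743.JL.H4 m := by
  refine ⟨fun h => (noFour_iff hm h0 h1).1 h.1, fun h => ⟨(noFour_iff hm h0 h1).2 h, ?_⟩⟩
  intro j hj hF
  obtain ⟨i, rfl⟩ := ge4 hj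
  exact (part4 i hm hF).2.2.2.1.2 h

end proof

open Classical in
theorem result :
    -- (1) the criteria
    (∀ (j : Fin 7) (m : ℤ), Squarefree m → Fam j m →
      IsMinimal (W j m) ∧ tors j m = (if j < 3 then 2 else 4) ∧
      (∃ (Λ : ℂ → ℂ) (y : ℕ), IsL (W j m) Λ ∧ 4 * anSha j m (Λ 1) = 2 ^ ex j m * (y : ℂ) ^ 2 ∧
        (Odd y ↔ Crit j m)) ∧
      (TwoPart j m ↔ Crit j m) ∧ (3 ≤ j → (TwoPart j m ↔ FinSha j m))) ∧
    -- (2) the joint law
    (∀ (δ : ℝ) (T T' : Finset ℤ) (inf : Prop) (S : Finset ℕ) (d₀ : ℤ), 0 < δ →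
      (∀ t ∈ T, Squarefree t) → (∀ t ∈ T', Squarefree t ∧ tw t d₀ < 0) → (∀ p ∈ S, p.Prime) →
      Squarefree d₀ →
      (∃ (κ : ℝ) (X₀ : ℕ), 0 < κ ∧ ∀ X : ℕ, X₀ ≤ X → κ * X ≤ (num (Cls T T' inf S d₀) X : ℝ)) ∧
      ∀ U ⊆ T.filter (fun t => Root (tw t d₀)), ∀ U' ⊆ T',
        Tendsto (fun X : ℕ => (num (fun m => Cls T T' inf S d₀ m ∧
            (∀ t ∈ T, (All17 δ (tw t m) ↔ t ∈ U)) ∧ ∀ t ∈ T', (All4 (tw t m) ↔ t ∈ U')) X : ℝ) /
          (num (Cls T T' inf S d₀) X : ℝ)) atTop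
          (𝓝 (c ^ U.card * (1 - c) ^ (T.filter (fun t => Root (tw t d₀)) \ U).card *
            (η ^ U'.card * (1 - η) ^ (T' \ U').card)))) ∧
    -- (3) the natural density in all the squarefree integers
    (∀ δ : ℝ, 0 < δ → Tendsto (fun X : ℕ => (num (All17 δ) X : ℝ) / (num (fun _ => True) X : ℝ))
      atTop (𝓝 (c / 2))) ∧
    0.4194 < c ∧ c < 0.4195 ∧ 0.2887 < η ∧ η < 0.2889 := by
  refine ⟨fun j m hm hF => ?_, fun δ T T' inf S d₀ hδ hT hT' hS hd => ⟨?_, fun U hU U' hU' => ?_⟩,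
    fun δ hδ => ?_, Pool.Agent.H743.X17.c2_bounds.1, Pool.Agent.H743.X17.c2_bounds.2,
    Pool.Agent.N916.GB.eta_bounds.1, Pool.Agent.N916.GB.eta_bounds.2⟩
  · by_cases hj : j ≤ 3
    · obtain ⟨i, rfl⟩ := le3 hj
      rw [crit_ix]
      exact part17 i hm hF
    · have hj4 : 4 ≤ j := by
        rw [not_le] at hj
        exact hj
      obtain ⟨i, rfl⟩ := ge4 hj4
      obtain ⟨h0, h1⟩ := fam_neg i hF
      obtain ⟨k1, k2, k3, k4, k5⟩ := part4 i hm hF
      rw [crit_jx, noFour_iff hm h0 h1, if_neg (not_lt.2 (le_of_lt (lt_of_lt_of_le (by decide) hj4)))]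
      exact ⟨k1, k2, k3, k4, fun _ => k5⟩
  · exact (Pool.Agent.H743.JL.fi2 T T' inf S d₀ hT hT' hS hd).1
  · exact Pool.Agent.H743.JL.tfz (All17 δ) All4 (Zs δ) (null_Zs hδ)
      (fun d hd hZ => all17_sys hd hZ) (fun d h0 hd h1 => all4_iff hd h0 h1)
      T T' inf S d₀ hT hT' hS hd U hU U' hU'
  · have h := Pool.Agent.H743.X17.ECX.res.2.2.2.2.2.2.1 δ hδ
    refine h.congr fun X => ?_
    have e : (All17 δ) = fun m => Pool.Agent.H743.X17.ECX.All m ∧
        Pool.Agent.H743.X17.ECX.Size δ m := funext fun m => propext all17_iff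
    rw [e]
    rfl

end Pool.Agent.Results.MP_4a9ea6_nt.SimultaneousTwoPart
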